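import Mathlib

set_option autoImplicit false
open scoped ENNReal
open Filter Topology

namespace Pool.Agent.H786R3.GS

/-- The Hilbert space of square-summable complex sequences. -/
abbrev H : Type := ↥(lp (fun _ : ℕ => ℂ) 2)

theorem nsq (x : H) : ‖x‖ ^ 2 = ∑' k, ‖x k‖ ^ 2 := by
  have h := lp.norm_rpow_eq_tsum (p := 2) (by norm_num) x
  simpa using h

theorem summ (x : H) : Summable (fun k => ‖x k‖ ^ 2) := by
  have h := (lp.memℓp x).summable (p := 2) (by norm_num)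
  simpa using h

theorem coord_le (x : H) (k : ℕ) : ‖x k‖ ≤ ‖x‖ := lp.norm_apply_le_norm (by norm_num) x k

theorem mem_of_le {f : ℕ → ℂ} (x : H) (h : ∀ k, ‖f k‖ ≤ ‖x k‖) : Memℓp f 2 := by
  rw [memℓp_gen_iff (by norm_num)]
  have := summ x
  refine Summable.of_nonneg_of_le (fun k => by positivity) (fun k => ?_) this
  simp only [ENNReal.toReal_ofNat, Real.rpow_ofNat]
  exact pow_le_pow_left₀ (norm_nonneg _) (h k) 2

/-- Diagonal operators with real entries of modulus at most one. -/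
noncomputable def dg (c : ℕ → ℝ) (hc : ∀ k, |c k| ≤ 1) : H →L[ℂ] H :=
  LinearMap.mkContinuous
    { toFun := fun x => ⟨fun k => (c k : ℂ) * x k, mem_of_le x (fun k => by
        rw [norm_mul, Complex.norm_real, Real.norm_eq_abs]
        exact mul_le_of_le_one_left (norm_nonneg _) (hc k))⟩
      map_add' := fun x y => by
        ext k
        exact mul_add _ _ _
      map_smul' := fun a x => by
        ext k
        exact mul_left_comm _ _ _ } 1 (fun x => by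
      rw [one_mul]
      have h1 : ‖(⟨fun k => (c k : ℂ) * x k, mem_of_le x (fun k => by
        rw [norm_mul, Complex.norm_real, Real.norm_eq_abs]
        exact mul_le_of_le_one_left (norm_nonneg _) (hc k))⟩ : H)‖ ^ 2 ≤ ‖x‖ ^ 2 := by
        rw [nsq, nsq]
        refine Summable.tsum_le_tsum (fun k => ?_) (summ _) (summ x)
        show ‖(c k : ℂ) * x k‖ ^ 2 ≤ ‖x k‖ ^ 2
        rw [norm_mul, Complex.norm_real, Real.norm_eq_abs]
        exact pow_le_pow_left₀ (by positivity)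
          (mul_le_of_le_one_left (norm_nonneg _) (hc k)) 2
      exact le_of_sq_le_sq h1 (norm_nonneg _))

theorem dg_apply (c : ℕ → ℝ) (hc : ∀ k, |c k| ≤ 1) (x : H) (k : ℕ) :
    dg c hc x k = (c k : ℂ) * x k := rfl

theorem add_apply (x y : H) (k : ℕ) : (x + y) k = x k + y k := rfl
theorem sub_apply (x y : H) (k : ℕ) : (x - y) k = x k - y k := rfl
theorem smul_apply (a : ℂ) (x : H) (k : ℕ) : (a • x) k = a * x k := rfl

theorem dg_le (c : ℕ → ℝ) (hc : ∀ k, |c k| ≤ 1) (x : H) : ‖dg c hc x‖ ≤ ‖x‖ := by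
  have h1 : ‖dg c hc x‖ ^ 2 ≤ ‖x‖ ^ 2 := by
    rw [nsq, nsq]
    refine Summable.tsum_le_tsum (fun k => ?_) (summ _) (summ x)
    rw [dg_apply, norm_mul, Complex.norm_real, Real.norm_eq_abs]
    exact pow_le_pow_left₀ (by positivity)
      (mul_le_of_le_one_left (norm_nonneg _) (hc k)) 2
  exact le_of_sq_le_sq h1 (norm_nonneg _)

theorem disj (u w : H) (h : ∀ k, u k = 0 ∨ w k = 0) : ‖u + w‖ ^ 2 = ‖u‖ ^ 2 + ‖w‖ ^ 2 := by
  rw [nsq, nsq, nsq, ← (summ u).tsum_add (summ w)]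
  refine tsum_congr (fun k => ?_)
  rw [add_apply]
  rcases h k with h | h <;> simp [h]

/-- The weights `0` below `j`, `1` at `j`, `1/√2` above `j`. -/
noncomputable def wt (j k : ℕ) : ℝ := if k < j then 0 else if k = j then 1 else (√2)⁻¹

theorem sqrt2_inv_sq : ((√2)⁻¹ : ℝ) ^ 2 = 1 / 2 := by
  rw [inv_pow, Real.sq_sqrt (by norm_num)]; norm_num

theorem sqrt2_inv_pos : (0 : ℝ) < (√2)⁻¹ := by positivity

theorem sqrt2_inv_le : ((√2)⁻¹ : ℝ) ≤ 1 := by
  have := sqrt2_inv_sq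
  nlinarith [sqrt2_inv_pos]

theorem wt_abs (j k : ℕ) : |wt j k| ≤ 1 := by
  unfold wt
  split_ifs
  · simp
  · simp
  · rw [abs_of_pos sqrt2_inv_pos]; exact sqrt2_inv_le

/-- The diagonal operator with weights `wt j`. -/
noncomputable def D (j : ℕ) : H →L[ℂ] H := dg (wt j) (wt_abs j)

theorem D_le (j : ℕ) (x : H) : ‖D j x‖ ≤ ‖x‖ := dg_le _ _ _

/-- The coordinate projection on the first `N` coordinates. -/
noncomputable def P (N : ℕ) : H →L[ℂ] H :=
  dg (fun k => if k < N then 1 else 0) (fun k => by split_ifs <;> simp)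

theorem P_apply (N : ℕ) (x : H) (k : ℕ) : P N x k = if k < N then x k else 0 := by
  unfold P
  rw [dg_apply]
  split_ifs <;> simp

theorem D_apply (j : ℕ) (x : H) (k : ℕ) : D j x k = (wt j k : ℂ) * x k := rfl

theorem half_sq_le_D0 (x : H) : ‖x‖ ^ 2 / 2 ≤ ‖D 0 x‖ ^ 2 := by
  rw [nsq, nsq, ← tsum_div_const]
  refine Summable.tsum_le_tsum (fun k => ?_) ((summ x).div_const 2) (summ _)
  rw [D_apply, norm_mul, mul_pow, Complex.norm_real, Real.norm_eq_abs, sq_abs]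
  have : 1 / 2 ≤ wt 0 k ^ 2 := by
    unfold wt
    split_ifs with h1 h2
    · omega
    · norm_num
    · rw [sqrt2_inv_sq]
  nlinarith [sq_nonneg ‖x k‖]

/-- The new norm. -/
noncomputable def nrm (x : H) : ℝ := ⨆ j, ‖D j x‖

theorem bdd (x : H) : BddAbove (Set.range fun j => ‖D j x‖) :=
  ⟨‖x‖, by rintro _ ⟨j, rfl⟩; exact D_le j x⟩

theorem D_le_nrm (j : ℕ) (x : H) : ‖D j x‖ ≤ nrm x := le_ciSup (bdd x) j

theorem nrm_le_of {x : H} {C : ℝ} (h : ∀ j, ‖D j x‖ ≤ C) : nrm x ≤ C := ciSup_le h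

theorem nrm_le_norm (x : H) : nrm x ≤ ‖x‖ := nrm_le_of (fun j => D_le j x)

theorem nrm_nonneg (x : H) : 0 ≤ nrm x := (norm_nonneg _).trans (D_le_nrm 0 x)

theorem half_sq_le_nrm (x : H) : ‖x‖ ^ 2 / 2 ≤ nrm x ^ 2 :=
  (half_sq_le_D0 x).trans (pow_le_pow_left₀ (norm_nonneg _) (D_le_nrm 0 x) 2)

theorem norm_le_nrm (x : H) : ‖x‖ ≤ 2 * nrm x := by
  have h := half_sq_le_nrm x
  have h2 : ‖x‖ ^ 2 ≤ (2 * nrm x) ^ 2 := by nlinarith [sq_nonneg (nrm x)]
  exact le_of_sq_le_sq h2 (by have := nrm_nonneg x; positivity)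

theorem nrm_sq_le_of {x : H} {C : ℝ} (h : ∀ j, ‖D j x‖ ^ 2 ≤ C) : nrm x ^ 2 ≤ C := by
  have hC : 0 ≤ C := (sq_nonneg _).trans (h 0)
  have : nrm x ≤ √C := nrm_le_of (fun j => Real.le_sqrt_of_sq_le (h j))
  calc nrm x ^ 2 ≤ √C ^ 2 := pow_le_pow_left₀ (nrm_nonneg x) this 2
    _ = C := Real.sq_sqrt hC

theorem D_sq_le_nrm_sq (j : ℕ) (x : H) : ‖D j x‖ ^ 2 ≤ nrm x ^ 2 :=
  pow_le_pow_left₀ (norm_nonneg _) (D_le_nrm j x) 2

theorem nrm_add (x y : H) : nrm (x + y) ≤ nrm x + nrm y := by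
  refine nrm_le_of (fun j => ?_)
  rw [map_add]
  exact (norm_add_le _ _).trans (add_le_add (D_le_nrm j x) (D_le_nrm j y))

theorem nrm_smul_le (a : ℂ) (x : H) : nrm (a • x) ≤ ‖a‖ * nrm x := by
  refine nrm_le_of (fun j => ?_)
  rw [map_smul, norm_smul]
  exact mul_le_mul_of_nonneg_left (D_le_nrm j x) (norm_nonneg _)

end Pool.Agent.H786R3.GS
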