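import Pool.Agent.H786R3.GS1

set_option autoImplicit false
open scoped ENNReal
open Filter Topology

namespace Pool.Agent.H786R3.GS

/-- Tail part. -/
noncomputable def Q (N : ℕ) (x : H) : H := x - P N x

theorem Q_apply (N : ℕ) (x : H) (k : ℕ) : Q N x k = if k < N then 0 else x k := by
  unfold Q
  rw [sub_apply, P_apply]
  split_ifs <;> simp

theorem P_add_Q (N : ℕ) (x : H) : P N x + Q N x = x := by
  unfold Q; abel

theorem D_split (j N : ℕ) (x : H) : ‖D j x‖ ^ 2 = ‖D j (P N x)‖ ^ 2 + ‖D j (Q N x)‖ ^ 2 := by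
  rw [← disj, ← map_add, P_add_Q]
  intro k
  rw [D_apply, D_apply, P_apply, Q_apply]
  by_cases h : k < N
  · right; simp [h]
  · left; simp [h]

theorem D_Q_of_lt {j N : ℕ} (h : j < N) (x : H) : ‖D j (Q N x)‖ ^ 2 = ‖Q N x‖ ^ 2 / 2 := by
  rw [nsq, nsq, ← tsum_div_const]
  refine tsum_congr (fun k => ?_)
  rw [D_apply, Q_apply]
  split_ifs with hk
  · simp
  · have : wt j k = (√2)⁻¹ := by
      unfold wt
      rw [if_neg (by omega), if_neg (by omega)]
    rw [this, norm_mul, mul_pow, Complex.norm_real, Real.norm_eq_abs, sq_abs, sqrt2_inv_sq]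
    ring

theorem D_P_of_le {j N : ℕ} (h : N ≤ j) {u : H} (hu : ∀ k, N ≤ k → u k = 0) : D j u = 0 := by
  ext k
  rw [D_apply]
  by_cases hk : N ≤ k
  · simp [hu k hk]
  · have : wt j k = 0 := by
      unfold wt
      rw [if_pos (by omega)]
    simp [this]

theorem P_supp (N : ℕ) (x : H) : ∀ k, N ≤ k → P N x k = 0 := by
  intro k hk
  rw [P_apply, if_neg (by omega)]

theorem P_eq_of_supp {N : ℕ} {u : H} (hu : ∀ k, N ≤ k → u k = 0) : P N u = u := by
  ext k
  rw [P_apply]
  split_ifs with h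
  · rfl
  · rw [hu k (by omega)]

theorem nrm_P_sq {N : ℕ} (hN : 0 < N) (x : H) :
    nrm (P N x) ^ 2 + ‖Q N x‖ ^ 2 / 2 ≤ nrm x ^ 2 := by
  have key : nrm (P N x) ^ 2 ≤ nrm x ^ 2 - ‖Q N x‖ ^ 2 / 2 := by
    refine nrm_sq_le_of (fun j => ?_)
    by_cases hj : j < N
    · have h1 := D_split j N x
      have h2 := D_Q_of_lt hj x
      have h3 := D_sq_le_nrm_sq j x
      linarith
    · rw [D_P_of_le (not_lt.mp hj) (P_supp N x)]
      have h1 := D_split 0 N x
      have h2 := D_Q_of_lt hN x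
      have h3 := D_sq_le_nrm_sq 0 x
      have h4 := sq_nonneg ‖D 0 (P N x)‖
      simp only [norm_zero]
      nlinarith
  linarith

theorem nrm_P_le (N : ℕ) (x : H) : nrm (P N x) ≤ nrm x := by
  refine nrm_le_of (fun j => ?_)
  refine le_trans ?_ (D_le_nrm j x)
  have h1 := D_split j N x
  have h2 := sq_nonneg ‖D j (Q N x)‖
  exact le_of_sq_le_sq (by linarith) (norm_nonneg _)

theorem nrm_block {N : ℕ} (hN : 0 < N) (A : H → H) (hA : ∀ x, nrm (A x) ≤ nrm x) (x : H) :
    nrm (P N (A (P N x)) + Q N x) ≤ nrm x := by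
  have hy : nrm (P N (A (P N x))) ≤ nrm (P N x) := (nrm_P_le N _).trans (hA _)
  have hmain : nrm (P N (A (P N x)) + Q N x) ^ 2 ≤ nrm x ^ 2 := by
    refine nrm_sq_le_of (fun j => ?_)
    have h1 := D_split j N (P N (A (P N x)) + Q N x)
    have e1 : P N (P N (A (P N x)) + Q N x) = P N (A (P N x)) := by
      ext k
      rw [P_apply, add_apply, P_apply, Q_apply]
      split_ifs <;> simp
    have e2 : Q N (P N (A (P N x)) + Q N x) = Q N x := by
      ext k
      rw [Q_apply, add_apply, P_apply, Q_apply]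
      split_ifs <;> simp
    rw [e1, e2] at h1
    by_cases hj : j < N
    · have h2 := D_Q_of_lt hj x
      have h3 := D_sq_le_nrm_sq j (P N (A (P N x)))
      have h4 := nrm_P_sq hN x
      have h5 : nrm (P N (A (P N x))) ^ 2 ≤ nrm (P N x) ^ 2 :=
        pow_le_pow_left₀ (nrm_nonneg _) hy 2
      linarith
    · have h2 : D j (P N (A (P N x))) = 0 := D_P_of_le (not_lt.mp hj) (P_supp N _)
      rw [h2, norm_zero] at h1
      have h3 := D_split j N x
      have h4 := D_sq_le_nrm_sq j x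
      have h5 := sq_nonneg ‖D j (P N x)‖
      linarith
  exact le_of_sq_le_sq hmain (nrm_nonneg _)

/-- The basis vectors. -/
noncomputable def e (n : ℕ) : H := lp.single 2 n (1 : ℂ)

theorem e_apply (n k : ℕ) : e n k = if k = n then 1 else 0 := by
  unfold e
  rw [lp.single_apply, Pi.single_apply]

theorem e_norm (n : ℕ) : ‖e n‖ = 1 := by
  unfold e
  rw [lp.norm_single (by norm_num)]
  simp

theorem D_e (j n : ℕ) : D j (e n) = (wt j n : ℂ) • e n := by
  ext k
  rw [D_apply, smul_apply, e_apply]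
  split_ifs with h
  · rw [h]
  · simp

theorem nrm_e (n : ℕ) : nrm (e n) = 1 := by
  apply le_antisymm
  · exact (nrm_le_norm _).trans (e_norm n).le
  · have h := D_le_nrm n (e n)
    rw [D_e, norm_smul, e_norm] at h
    have : wt n n = 1 := by unfold wt; simp
    rw [this] at h
    simpa using h

theorem nrm_add_e_le {N : ℕ} {u : H} (hu : ∀ k, N ≤ k → u k = 0) (hs : nrm u ^ 2 ≤ 1 / 2) :
    nrm (u + e N) ≤ 1 := by
  have : nrm (u + e N) ^ 2 ≤ 1 := by
    refine nrm_sq_le_of (fun j => ?_)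
    rw [map_add, disj]
    · rw [D_e, norm_smul, e_norm, mul_one, Complex.norm_real, Real.norm_eq_abs, sq_abs]
      have h3 := D_sq_le_nrm_sq j u
      unfold wt
      split_ifs with h1 h2
      · linarith
      · rw [D_P_of_le (by omega) hu]; simp
      · rw [sqrt2_inv_sq]; linarith
    · intro k
      rw [D_apply, D_apply, e_apply]
      by_cases hk : N ≤ k
      · left; simp [hu k hk]
      · right; rw [if_neg (by omega)]; simp
  have h0 := nrm_nonneg (u + e N)
  nlinarith

theorem one_le_nrm_add_e {N : ℕ} {u : H} (hu : ∀ k, N ≤ k → u k = 0) :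
    1 ≤ nrm (u + e N) := by
  have h := D_le_nrm N (u + e N)
  have h2 := coord_le (D N (u + e N)) N
  rw [D_apply, add_apply, e_apply, hu N le_rfl] at h2
  have : wt N N = 1 := by unfold wt; simp
  rw [this] at h2
  refine le_trans ?_ h
  simpa using h2

theorem norm_sq_le_split (j : ℕ) (w : H) :
    ‖w‖ ^ 2 ≤ ∑ k ∈ Finset.range j, ‖w k‖ ^ 2 + 2 * ‖D j w‖ ^ 2 := by
  have h1 : ‖w‖ ^ 2 = ‖P j w‖ ^ 2 + ‖Q j w‖ ^ 2 := by
    rw [← disj, P_add_Q]
    intro k
    rw [P_apply, Q_apply]
    by_cases h : k < j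
    · right; simp [h]
    · left; simp [h]
  have h2 : ‖P j w‖ ^ 2 = ∑ k ∈ Finset.range j, ‖w k‖ ^ 2 := by
    rw [nsq, tsum_eq_sum (s := Finset.range j)]
    · refine Finset.sum_congr rfl (fun k hk => ?_)
      rw [P_apply, if_pos (Finset.mem_range.mp hk)]
    · intro k hk
      rw [P_apply, if_neg (by simpa using hk)]
      simp
  have h3 : ‖Q j w‖ ^ 2 ≤ 2 * ‖D j w‖ ^ 2 := by
    rw [nsq, nsq, ← tsum_mul_left]
    refine Summable.tsum_le_tsum (fun k => ?_) (summ _) ((summ _).mul_left 2)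
    rw [Q_apply, D_apply]
    split_ifs with hk
    · simp only [norm_zero]; nlinarith [sq_nonneg ‖(wt j k : ℂ) * w k‖]
    · rw [norm_mul, mul_pow, Complex.norm_real, Real.norm_eq_abs, sq_abs]
      have : 1 / 2 ≤ wt j k ^ 2 := by
        unfold wt
        split_ifs with h2
        · norm_num
        · rw [sqrt2_inv_sq]
      nlinarith [sq_nonneg ‖w k‖]
  linarith

theorem inner_e (k : ℕ) (z : H) : inner ℂ (e k) z = z k := by
  unfold e
  rw [lp.inner_single_left]
  simp

/-- The Kadec-Klee property along a filter. -/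
theorem kadec {ι : Type*} {l : Filter ι} {z : ι → H} {y : H}
    (hw : ∀ v : H, Tendsto (fun i => inner ℂ v (z i)) l (𝓝 (inner ℂ v y)))
    (hn : ∀ᶠ i in l, nrm (z i) ≤ nrm y) : Tendsto z l (𝓝 y) := by
  rw [tendsto_iff_norm_sub_tendsto_zero]
  have hsq : Tendsto (fun i => ‖z i - y‖ ^ 2) l (𝓝 0) := by
    rw [Metric.tendsto_nhds]
    intro η hη
    -- choose j almost attaining the norm of y
    obtain ⟨j, hj⟩ : ∃ j, nrm y ^ 2 < ‖D j y‖ ^ 2 + η / 8 := by
      by_contra hcon
      push Not at hcon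
      have : nrm y ^ 2 ≤ nrm y ^ 2 - η / 8 := nrm_sq_le_of (fun j => by linarith [hcon j])
      linarith
    have hd : ∀ v : H, Tendsto (fun i => inner ℂ v (z i - y)) l (𝓝 0) := by
      intro v
      have := (hw v).sub_const (inner ℂ v y)
      simpa [inner_sub_right] using this
    have hc : Tendsto (fun i => ∑ k ∈ Finset.range j, ‖(z i - y) k‖ ^ 2) l (𝓝 0) := by
      have : Tendsto (fun i => ∑ k ∈ Finset.range j, ‖(z i - y) k‖ ^ 2) l
          (𝓝 (∑ k ∈ Finset.range j, (0 : ℝ))) := by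
        refine tendsto_finsetSum _ (fun k _ => ?_)
        have h1 := hd (e k)
        simp only [inner_e] at h1
        have h2 := (h1.norm).pow 2
        simpa using h2
      simpa using this
    have hi : Tendsto (fun i => (inner ℂ (D j y) (D j (z i - y))).re) l (𝓝 0) := by
      have h1 := hd ((D j).adjoint (D j y))
      simp only [ContinuousLinearMap.adjoint_inner_left] at h1
      have h2 := (Complex.continuous_re.tendsto 0).comp h1
      rw [Complex.zero_re] at h2
      exact h2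
    have e1 := hc.eventually (gt_mem_nhds (show (0 : ℝ) < η / 4 by positivity))
    have e2 := hi.eventually (lt_mem_nhds (show -(η / 16) < (0 : ℝ) by linarith))
    filter_upwards [hn, e1, e2] with i h0 h1 h2
    have h3 : ‖D j (z i)‖ ^ 2 = ‖D j y‖ ^ 2 + 2 * (inner ℂ (D j y) (D j (z i - y))).re
        + ‖D j (z i - y)‖ ^ 2 := by
      have := norm_add_sq (𝕜 := ℂ) (D j y) (D j (z i - y))
      rw [← map_add, add_sub_cancel] at this
      exact this
    have h4 : ‖D j (z i)‖ ^ 2 ≤ nrm y ^ 2 :=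
      (D_sq_le_nrm_sq j _).trans (pow_le_pow_left₀ (nrm_nonneg _) h0 2)
    have h5 := norm_sq_le_split j (z i - y)
    rw [Real.dist_eq, sub_zero, abs_of_nonneg (by positivity)]
    linarith
  have := hsq.sqrt
  simpa using this

end Pool.Agent.H786R3.GS
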