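import Pool.Agent.H786R3.GS2

set_option autoImplicit false
open scoped ENNReal
open Filter Topology

namespace Pool.Agent.H786R3.GS

/-- The renormed sequence space. -/
def X : Type := H

noncomputable instance : AddCommGroup X := inferInstanceAs (AddCommGroup H)
noncomputable instance : Module ℂ X := inferInstanceAs (Module ℂ H)

theorem nrm_neg (x : H) : nrm (-x) = nrm x := by
  unfold nrm
  congr 1
  ext j
  rw [map_neg, norm_neg]

/-- The new norm as an `AddGroupNorm`. -/
noncomputable def gnorm : AddGroupNorm X where
  toFun := fun x => nrm (x : H)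
  map_zero' := by
    apply le_antisymm
    · refine (nrm_le_norm _).trans ?_
      exact (norm_zero (E := H)).le
    · exact nrm_nonneg _
  add_le' := fun x y => nrm_add x y
  neg' := fun x => nrm_neg x
  eq_zero_of_map_eq_zero' := fun x hx => by
    have h := norm_le_nrm (x : H)
    have hx' : nrm (x : H) = 0 := hx
    rw [hx', mul_zero] at h
    exact norm_le_zero_iff.mp h

noncomputable instance : NormedAddCommGroup X := gnorm.toNormedAddCommGroup

theorem X_norm (x : X) : ‖x‖ = nrm (x : H) := rfl

noncomputable instance : NormedSpace ℂ X where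
  norm_smul_le := fun a x => nrm_smul_le a x

/-- The identity as a continuous linear equivalence from `X` to `H`. -/
noncomputable def E : X ≃L[ℂ] H :=
  ContinuousLinearEquiv.equivOfInverse
    (LinearMap.mkContinuous
      ({ toFun := fun x => (x : H), map_add' := fun _ _ => rfl, map_smul' := fun _ _ => rfl } :
        X →ₗ[ℂ] H) 2 (fun x => norm_le_nrm x))
    (LinearMap.mkContinuous
      ({ toFun := fun x => (x : X), map_add' := fun _ _ => rfl, map_smul' := fun _ _ => rfl } :
        H →ₗ[ℂ] X) 1 (fun x => by rw [one_mul]; exact nrm_le_norm x))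
    (fun _ => rfl) (fun _ => rfl)

instance : CompleteSpace X := by
  have h : IsUniformEmbedding (E.toEquiv) := E.isUniformEmbedding
  exact (completeSpace_congr h).mpr inferInstance

theorem H_separable : TopologicalSpace.SeparableSpace H := by
  have h1 : TopologicalSpace.IsSeparable (Set.range e) :=
    (Set.countable_range e).isSeparable
  have h2 : TopologicalSpace.IsSeparable (closure ((Submodule.span ℂ (Set.range e) : Set H))) :=
    (h1.span (R := ℂ)).closure
  have h3 : closure ((Submodule.span ℂ (Set.range e) : Set H)) = Set.univ := by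
    rw [Set.eq_univ_iff_forall]
    intro x
    have hs := lp.hasSum_single (p := 2) (by norm_num) x
    refine mem_closure_of_tendsto hs (Eventually.of_forall (fun s => ?_))
    refine Submodule.sum_mem _ (fun k _ => ?_)
    have : lp.single 2 k (x k) = (x k) • e k := by
      unfold e
      rw [← lp.single_smul]
      simp
    rw [this]
    exact Submodule.smul_mem _ _ (Submodule.subset_span ⟨k, rfl⟩)
  rw [h3] at h2
  exact TopologicalSpace.isSeparable_univ_iff.mp h2

instance : TopologicalSpace.SeparableSpace X := by
  have := H_separable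
  exact (E.symm.toHomeomorph.surjective.denseRange).separableSpace E.symm.continuous

theorem X_infinite : ¬ FiniteDimensional ℂ X := by
  intro hX
  have hH : FiniteDimensional ℂ H := E.toLinearEquiv.finiteDimensional
  have hli : LinearIndependent ℂ e := by
    rw [linearIndependent_iff']
    intro s g hg i hi
    have h1 := congrArg (fun v : H => v i) hg
    simp only at h1
    rw [lp.coeFn_sum, Finset.sum_apply] at h1
    rw [Finset.sum_eq_single i] at h1
    · rw [smul_apply, e_apply, if_pos rfl, mul_one] at h1
      exact h1
    · intro b _ hb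
      rw [smul_apply, e_apply, if_neg (Ne.symm hb), mul_zero]
    · intro h; exact absurd hi h
  have := hli.finite
  exact not_finite ℕ

theorem X_reflexive : Function.Surjective (NormedSpace.inclusionInDoubleDual ℂ X) := by
  intro F
  let EL : X →L[ℂ] H := (E : X →L[ℂ] H)
  let L : H →L[ℂ] ℂ := LinearMap.mkContinuous
    { toFun := fun y => (starRingEnd ℂ) (F ((InnerProductSpace.toDual ℂ H y).comp EL))
      map_add' := fun y z => by
        rw [map_add, ContinuousLinearMap.add_comp, map_add, map_add]
      map_smul' := fun a y => by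
        rw [map_smulₛₗ, ContinuousLinearMap.smul_comp, map_smul, smul_eq_mul, map_mul]
        simp } (‖F‖ * ‖EL‖) (fun y => by
      have h1 : ‖(starRingEnd ℂ) (F ((InnerProductSpace.toDual ℂ H y).comp EL))‖ =
          ‖F ((InnerProductSpace.toDual ℂ H y).comp EL)‖ := RCLike.norm_conj _
      have h2 : ‖(InnerProductSpace.toDual ℂ H y).comp EL‖ ≤ ‖y‖ * ‖EL‖ := by
        refine (ContinuousLinearMap.opNorm_comp_le _ _).trans ?_
        rw [LinearIsometryEquiv.norm_map]
      have h3 : ‖F ((InnerProductSpace.toDual ℂ H y).comp EL)‖ ≤ ‖F‖ * (‖y‖ * ‖EL‖) :=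
        (F.le_opNorm _).trans (mul_le_mul_of_nonneg_left h2 (norm_nonneg _))
      show ‖(starRingEnd ℂ) (F ((InnerProductSpace.toDual ℂ H y).comp EL))‖ ≤ _
      rw [h1]
      linarith)
  let z : H := (InnerProductSpace.toDual ℂ H).symm L
  refine ⟨E.symm z, ?_⟩
  ext f
  rw [NormedSpace.dual_def]
  let y : H := (InnerProductSpace.toDual ℂ H).symm (f.comp (E.symm : H →L[ℂ] X))
  have hy : InnerProductSpace.toDual ℂ H y = f.comp (E.symm : H →L[ℂ] X) :=
    (InnerProductSpace.toDual ℂ H).apply_symm_apply _
  have hf : f = (InnerProductSpace.toDual ℂ H y).comp EL := by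
    ext x
    rw [hy]
    show f x = f (E.symm (E x))
    rw [ContinuousLinearEquiv.symm_apply_apply]
  have h1 : L y = inner ℂ z y := by
    rw [← InnerProductSpace.toDual_apply_apply (𝕜 := ℂ)]
    show L y = ((InnerProductSpace.toDual ℂ H) ((InnerProductSpace.toDual ℂ H).symm L)) y
    rw [LinearIsometryEquiv.apply_symm_apply]
  have h2 : L y = (starRingEnd ℂ) (F ((InnerProductSpace.toDual ℂ H y).comp EL)) := rfl
  rw [← hf] at h2
  have h3 : F f = inner ℂ y z := by
    rw [← inner_conj_symm, ← h1, h2]
    simp
  rw [h3]
  have h4 : f (E.symm z) = (f.comp (E.symm : H →L[ℂ] X)) z := rfl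
  rw [h4, ← hy]
  exact InnerProductSpace.toDual_apply_apply (𝕜 := ℂ)

end Pool.Agent.H786R3.GS
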