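import Pool.Agent.H786R3.GS3

set_option autoImplicit false
open scoped ENNReal
open Filter Topology

namespace Pool.Agent.H786R3.GS

/-- Contractions, to carry the topology of convergence on the basis vectors. -/
@[ext] structure S : Type where
  /-- the operator -/
  val : X →L[ℂ] X
  /-- the bound -/
  property : ‖val‖ ≤ 1

/-- The basis vectors in `X`. -/
noncomputable def en (n : ℕ) : X := E.symm (e n)

theorem E_en (n : ℕ) : E (en n) = e n := E.apply_symm_apply _

/-- The embedding of contractions into sequences of vectors. -/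
noncomputable def J (T : S) : ℕ → X := fun n => T.1 (en n)

noncomputable instance : UniformSpace S := UniformSpace.comap J inferInstance

theorem J_ui : IsUniformInducing J := ⟨rfl⟩

theorem hasSum_en (x : X) : HasSum (fun k => (E x) k • en k) x := by
  have hs := lp.hasSum_single (p := 2) (by norm_num) (E x)
  have h2 := hs.mapL (E.symm : H →L[ℂ] X)
  have h3 : (fun k => (E.symm : H →L[ℂ] X) (lp.single 2 k ((E x) k))) =
      fun k => (E x) k • en k := by
    ext k
    have : lp.single 2 k ((E x) k) = ((E x) k) • e k := by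
      unfold e
      rw [← lp.single_smul]
      simp
    rw [this, map_smul]
    rfl
  rw [h3] at h2
  simpa using h2

theorem S_apply_le (T : S) (x : X) : ‖T.1 x‖ ≤ ‖x‖ := by
  calc ‖T.1 x‖ ≤ ‖T.1‖ * ‖x‖ := T.1.le_opNorm x
    _ ≤ 1 * ‖x‖ := by
      have := T.2
      gcongr
    _ = ‖x‖ := one_mul _

/-- The closed set of admissible sequences. -/
def K : Set (ℕ → X) :=
  {y | ∀ (s : Finset ℕ) (a : ℕ → ℂ), ‖∑ k ∈ s, a k • y k‖ ≤ ‖∑ k ∈ s, a k • en k‖}

theorem K_closed : IsClosed K := by
  have : K = ⋂ (s : Finset ℕ), ⋂ (a : ℕ → ℂ),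
      {y : ℕ → X | ‖∑ k ∈ s, a k • y k‖ ≤ ‖∑ k ∈ s, a k • en k‖} := by
    ext y; simp [K]
  rw [this]
  refine isClosed_iInter (fun s => isClosed_iInter (fun a => ?_))
  refine isClosed_le ?_ continuous_const
  fun_prop

theorem K_summable {y : ℕ → X} (hy : y ∈ K) (x : X) : Summable (fun k => (E x) k • y k) := by
  rw [summable_iff_vanishing_norm]
  intro ε hε
  have h := (hasSum_en x).summable
  rw [summable_iff_vanishing_norm] at h
  obtain ⟨s, hs⟩ := h ε hε
  exact ⟨s, fun t ht => (hy t _).trans_lt (hs t ht)⟩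

theorem K_bound {y : ℕ → X} (hy : y ∈ K) (x : X) : ‖∑' k, (E x) k • y k‖ ≤ ‖x‖ := by
  have h1 := (K_summable hy x).hasSum.norm
  have h2 := (hasSum_en x).norm
  exact le_of_tendsto_of_tendsto h1 h2 (Eventually.of_forall (fun s => hy s _))

theorem range_J : Set.range J = K := by
  apply Set.Subset.antisymm
  · rintro _ ⟨T, rfl⟩ s a
    have : ∑ k ∈ s, a k • J T k = T.1 (∑ k ∈ s, a k • en k) := by
      rw [map_sum]
      refine Finset.sum_congr rfl (fun k _ => ?_)
      rw [map_smul]
      rfl
    rw [this]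
    exact S_apply_le T _
  · intro y hy
    let T : X →L[ℂ] X := LinearMap.mkContinuous
      { toFun := fun x => ∑' k, (E x) k • y k
        map_add' := fun x x' => by
          rw [← (K_summable hy x).tsum_add (K_summable hy x')]
          refine tsum_congr (fun k => ?_)
          rw [map_add, add_apply, add_smul]
        map_smul' := fun a x => by
          rw [RingHom.id_apply, ← (K_summable hy x).tsum_const_smul]
          refine tsum_congr (fun k => ?_)
          rw [map_smul, smul_apply, mul_smul] } 1 (fun x => by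
        rw [one_mul]; exact K_bound hy x)
    refine ⟨⟨T, LinearMap.mkContinuous_norm_le _ zero_le_one _⟩, ?_⟩
    funext n
    show ∑' k, (E (en n)) k • y k = y n
    rw [tsum_eq_single n]
    · rw [E_en, e_apply, if_pos rfl, one_smul]
    · intro k hk
      rw [E_en, e_apply, if_neg hk, zero_smul]

instance : CompleteSpace S := by
  rw [completeSpace_iff_isComplete_range J_ui, range_J]
  exact K_closed.isComplete

instance : (uniformity S).IsCountablyGenerated := by
  show (Filter.comap _ _).IsCountablyGenerated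
  infer_instance

theorem S_baire : BaireSpace S := inferInstance

theorem continuous_en (n : ℕ) : Continuous (fun T : S => T.1 (en n)) :=
  (continuous_apply n).comp J_ui.uniformContinuous.continuous

/-- Partial sums. -/
noncomputable def ps (N : ℕ) (x : X) : X := ∑ k ∈ Finset.range N, (E x) k • en k

theorem ps_tendsto (x : X) : Tendsto (fun N => ps N x) atTop (𝓝 x) :=
  (hasSum_en x).tendsto_sum_nat

theorem E_ps (N : ℕ) (x : X) : E (ps N x) = P N (E x) := by
  ext j
  unfold ps
  rw [map_sum, lp.coeFn_sum, Finset.sum_apply, P_apply]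
  simp only [map_smul, smul_apply, E_en, e_apply, mul_ite, mul_one, mul_zero]
  rw [Finset.sum_ite_eq]
  simp

theorem continuous_eval (x : X) : Continuous (fun T : S => T.1 x) := by
  have hu : TendstoUniformly (fun (N : ℕ) (T : S) => T.1 (ps N x)) (fun T : S => T.1 x) atTop := by
    rw [Metric.tendstoUniformly_iff]
    intro ε hε
    have h := (Metric.tendsto_nhds.mp (ps_tendsto x)) ε hε
    filter_upwards [h] with N hN T
    rw [dist_comm, dist_eq_norm, ← map_sub]
    refine (S_apply_le T _).trans_lt ?_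
    rwa [← dist_eq_norm]
  refine hu.continuous (Eventually.frequently (Eventually.of_forall (fun N => ?_)))
  have : (fun T : S => T.1 (ps N x)) =
      fun T : S => ∑ k ∈ Finset.range N, (E x) k • T.1 (en k) := by
    funext T
    unfold ps
    rw [map_sum]
    refine Finset.sum_congr rfl (fun k _ => ?_)
    rw [map_smul]
  rw [this]
  refine continuous_finsetSum _ (fun k _ => ?_)
  have h1 := continuous_en k
  have h2 : Continuous (fun v : X => ((E x) k : ℂ) • v) := continuous_const_smul _
  exact h2.comp h1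

theorem continuous_pow (n : ℕ) (x : X) : Continuous (fun T : S => (T.1 ^ n) x) := by
  induction n with
  | zero => simpa using continuous_const
  | succ n ih =>
    rw [continuous_iff_continuousAt]
    intro T₀
    have h1 : Tendsto (fun T : S => (T.1 ^ n) x) (𝓝 T₀) (𝓝 ((T₀.1 ^ n) x)) := ih.tendsto T₀
    have h2 : Tendsto (fun T : S => T.1 ((T₀.1 ^ n) x)) (𝓝 T₀) (𝓝 (T₀.1 ((T₀.1 ^ n) x))) :=
      (continuous_eval _).tendsto T₀
    have h3 : Tendsto (fun T : S => ‖(T.1 ^ n) x - (T₀.1 ^ n) x‖ +
        ‖T.1 ((T₀.1 ^ n) x) - T₀.1 ((T₀.1 ^ n) x)‖) (𝓝 T₀) (𝓝 0) := by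
      have a1 := (tendsto_iff_norm_sub_tendsto_zero.mp h1)
      have a2 := (tendsto_iff_norm_sub_tendsto_zero.mp h2)
      simpa using a1.add a2
    show Tendsto (fun T : S => (T.1 ^ (n + 1)) x) (𝓝 T₀) (𝓝 ((T₀.1 ^ (n + 1)) x))
    rw [tendsto_iff_norm_sub_tendsto_zero]
    refine squeeze_zero (fun _ => norm_nonneg _) (fun T => ?_) h3
    rw [pow_succ', pow_succ']
    show ‖T.1 ((T.1 ^ n) x) - T₀.1 ((T₀.1 ^ n) x)‖ ≤ _
    have : T.1 ((T.1 ^ n) x) - T₀.1 ((T₀.1 ^ n) x) =
        T.1 ((T.1 ^ n) x - (T₀.1 ^ n) x) + (T.1 ((T₀.1 ^ n) x) - T₀.1 ((T₀.1 ^ n) x)) := by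
      rw [map_sub]; abel
    rw [this]
    exact (norm_add_le _ _).trans (add_le_add (S_apply_le T _) le_rfl)

end Pool.Agent.H786R3.GS
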