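import Pool.Agent.H786R3.GS4

set_option autoImplicit false
open scoped ENNReal
open Filter Topology

namespace Pool.Agent.H786R3.GS

/-- The contractions, as in the frozen statement. -/
abbrev C : Type := {T : X →L[ℂ] X // ‖T‖ ≤ 1}

/-- Conversion. -/
def toC (T : S) : C := ⟨T.val, T.property⟩

/-- Conversion. -/
def toS (T : C) : S := ⟨T.1, T.2⟩

theorem C_apply_le (T : C) (x : X) : ‖T.1 x‖ ≤ ‖x‖ := S_apply_le ⟨T.1, T.2⟩ x

/-- The weak operator topology on `C`. -/
noncomputable abbrev wot : TopologicalSpace C :=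
  TopologicalSpace.induced (fun (T : C) (p : X × (X →L[ℂ] ℂ)) => p.2 (T.1 p.1))
    (Pi.topologicalSpace : TopologicalSpace (X × (X →L[ℂ] ℂ) → ℂ))

theorem wot_eval (x : X) (f : X →L[ℂ] ℂ) (B : C) :
    Tendsto (fun T : C => f (T.1 x)) (@nhds C wot B) (𝓝 (f (B.1 x))) := by
  have h : @Tendsto C (X × (X →L[ℂ] ℂ) → ℂ) (fun (T : C) (p : X × (X →L[ℂ] ℂ)) => p.2 (T.1 p.1))
      (@nhds C wot B) (𝓝 (fun p => p.2 (B.1 p.1))) := by
    rw [nhds_induced]
    exact tendsto_comap
  exact (tendsto_pi_nhds.mp h) (x, f)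

theorem norming {B : C} {v : X} (hv : ‖v‖ ≤ ‖B.1 v‖) :
    Tendsto (fun T : C => T.1 v) (@nhds C wot B) (𝓝 (B.1 v)) := by
  have h : Tendsto (fun T : C => E (T.1 v)) (@nhds C wot B) (𝓝 (E (B.1 v))) := by
    apply kadec
    · intro u
      exact wot_eval v ((InnerProductSpace.toDual ℂ H u).comp (E : X →L[ℂ] H)) B
    · exact Eventually.of_forall (fun T => (C_apply_le T v).trans hv)
  have h2 := (E.symm.continuous.tendsto _).comp h
  simpa [Function.comp_def] using h2

/-- Projection as a continuous linear map on `X`. -/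
noncomputable def PX (N : ℕ) : X →L[ℂ] X :=
  (E.symm : H →L[ℂ] X).comp ((P N).comp (E : X →L[ℂ] H))

/-- The block contraction `P T P + (1 - P)`. -/
noncomputable def blk (N : ℕ) (T : X →L[ℂ] X) : X →L[ℂ] X :=
  (PX N).comp (T.comp (PX N)) + (ContinuousLinearMap.id ℂ X - PX N)

theorem E_blk (N : ℕ) (T : X →L[ℂ] X) (x : X) :
    E (blk N T x) = P N (E (T (E.symm (P N (E x))))) + Q N (E x) := by
  unfold blk PX Q
  simp

theorem X_norm' (x : X) : ‖x‖ = nrm (E x) := rfl

theorem blk_norm {N : ℕ} (hN : 0 < N) {T : X →L[ℂ] X} (hT : ‖T‖ ≤ 1) : ‖blk N T‖ ≤ 1 := by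
  refine ContinuousLinearMap.opNorm_le_bound _ zero_le_one (fun x => ?_)
  rw [one_mul, X_norm', E_blk, X_norm']
  refine nrm_block hN (fun u => E (T (E.symm u))) (fun u => ?_) (E x)
  have h := S_apply_le ⟨T, hT⟩ (E.symm u)
  rw [X_norm', X_norm', E.apply_symm_apply] at h
  exact h

theorem blk_en_of_le {N m : ℕ} (h : N ≤ m) (T : X →L[ℂ] X) : blk N T (en m) = en m := by
  apply E.injective
  have h1 : P N (E (en m)) = 0 := by
    ext k
    rw [E_en, P_apply, e_apply]
    split_ifs <;> first | rfl | omega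
  rw [E_blk]
  unfold Q
  rw [h1]
  simp

theorem en_norm (n : ℕ) : ‖en n‖ = 1 := by
  rw [X_norm', E_en, nrm_e]

theorem blk_conv {N : ℕ} (hN : 0 < N) (T : X →L[ℂ] X) (hT : ‖T‖ ≤ 1) (m : ℕ) :
    Tendsto (fun R : C => R.1 (en m)) (@nhds C wot ⟨blk N T, blk_norm hN hT⟩)
      (𝓝 (blk N T (en m))) := by
  by_cases hm : N ≤ m
  · refine norming (B := ⟨blk N T, blk_norm hN hT⟩) ?_
    show ‖en m‖ ≤ ‖blk N T (en m)‖
    rw [blk_en_of_le hm]
  · have hv1 : ‖(2⁻¹ : ℂ) • en m + en N‖ ≤ ‖blk N T ((2⁻¹ : ℂ) • en m + en N)‖ := by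
      have a1 : ‖(2⁻¹ : ℂ) • en m + en N‖ ≤ 1 := by
        rw [X_norm', map_add, map_smul, E_en, E_en]
        apply nrm_add_e_le
        · intro k hk
          rw [smul_apply, e_apply, if_neg (by omega), mul_zero]
        · have h1 := nrm_smul_le (2⁻¹ : ℂ) (e m)
          rw [nrm_e] at h1
          have h2 : ‖(2⁻¹ : ℂ)‖ = 2⁻¹ := by simp
          rw [h2] at h1
          have h3 := nrm_nonneg ((2⁻¹ : ℂ) • e m)
          nlinarith
      have a2 : 1 ≤ ‖blk N T ((2⁻¹ : ℂ) • en m + en N)‖ := by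
        rw [map_add, blk_en_of_le le_rfl, X_norm', map_add, E_en, map_smul, map_smul]
        apply one_le_nrm_add_e
        intro k hk
        have hQ : Q N (E (en m)) = 0 := by
          ext j
          rw [Q_apply, E_en, e_apply]
          split_ifs <;> first | rfl | omega
        rw [smul_apply, E_blk, add_apply, P_supp N _ k hk, hQ]
        simp
      exact a1.trans a2
    have hv2 : ‖en N‖ ≤ ‖blk N T (en N)‖ := by rw [blk_en_of_le le_rfl]
    have t1 := norming (B := ⟨blk N T, blk_norm hN hT⟩) hv1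
    have t2 := norming (B := ⟨blk N T, blk_norm hN hT⟩) hv2
    have t3 := (t1.sub t2).const_smul (2 : ℂ)
    have e1 : ∀ R : X →L[ℂ] X, (2 : ℂ) • (R ((2⁻¹ : ℂ) • en m + en N) - R (en N)) = R (en m) := by
      intro R
      rw [map_add, add_sub_cancel_right, map_smul, smul_smul]
      norm_num
    have e2 := e1 (blk N T)
    have e3 : (fun R : C => (2 : ℂ) • (R.1 ((2⁻¹ : ℂ) • en m + en N) - R.1 (en N))) =
        fun R : C => R.1 (en m) := by
      funext R
      exact e1 R.1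
    show Tendsto (fun R : C => R.1 (en m)) (@nhds C wot ⟨blk N T, blk_norm hN hT⟩)
      (𝓝 (blk N T (en m)))
    rw [← e2, ← e3]
    exact t3

/-- At block contractions the weak operator neighbourhoods refine the strong ones. -/
theorem blk_nhds {N : ℕ} (hN : 0 < N) (T : X →L[ℂ] X) (hT : ‖T‖ ≤ 1) :
    Tendsto toS (@nhds C wot ⟨blk N T, blk_norm hN hT⟩) (𝓝 (⟨blk N T, blk_norm hN hT⟩ : S)) := by
  rw [J_ui.isInducing.nhds_eq_comap, tendsto_comap_iff, tendsto_pi_nhds]
  intro m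
  exact blk_conv hN T hT m

theorem blk_tendsto (T : S) :
    Tendsto (fun n : ℕ => (⟨blk (n + 1) T.1, blk_norm n.succ_pos T.2⟩ : S)) atTop (𝓝 T) := by
  rw [J_ui.isInducing.nhds_eq_comap, tendsto_comap_iff, tendsto_pi_nhds]
  intro m
  show Tendsto (fun n : ℕ => blk (n + 1) T.1 (en m)) atTop (𝓝 (T.1 (en m)))
  have h1 : ∀ᶠ n : ℕ in atTop, ps (n + 1) (T.1 (en m)) = blk (n + 1) T.1 (en m) := by
    filter_upwards [eventually_ge_atTop m] with n hn
    apply E.injective
    have hP : P (n + 1) (E (en m)) = E (en m) := by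
      apply P_eq_of_supp
      intro k hk
      rw [E_en, e_apply, if_neg (by omega)]
    rw [E_ps, E_blk]
    unfold Q
    rw [hP]
    simp
  refine Tendsto.congr' h1 ?_
  exact (ps_tendsto _).comp (tendsto_add_atTop_nat 1)

/-- A dense set for the weak operator topology is dense for the strong one. -/
theorem dense_transfer {U : Set C} (hU : @Dense C wot U) : Dense (toC ⁻¹' U) := by
  intro T
  rw [mem_closure_iff_nhds]
  intro V hV
  obtain ⟨V', hV'V, hV'o, hTV'⟩ := mem_nhds_iff.mp hV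
  have h1 : ∀ᶠ n : ℕ in atTop, (⟨blk (n + 1) T.1, blk_norm n.succ_pos T.2⟩ : S) ∈ V' :=
    (blk_tendsto T).eventually (hV'o.mem_nhds hTV')
  obtain ⟨n, hn⟩ := h1.exists
  have h2 : toS ⁻¹' V' ∈ @nhds C wot ⟨blk (n + 1) T.1, blk_norm n.succ_pos T.2⟩ :=
    blk_nhds n.succ_pos T.1 T.2 (hV'o.mem_nhds hn)
  have h3 := (@mem_closure_iff_nhds C wot ⟨blk (n + 1) T.1, blk_norm n.succ_pos T.2⟩ U).mp
    (hU _) _ h2
  obtain ⟨R, hR1, hR2⟩ := h3
  exact ⟨toS R, hV'V hR1, hR2⟩

theorem open_transfer {U : Set C} (hU : IsOpen[wot] U) : IsOpen (toC ⁻¹' U) := by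
  obtain ⟨W, hW, rfl⟩ := isOpen_induced_iff.mp hU
  have hc : Continuous (fun (T : S) (p : X × (X →L[ℂ] ℂ)) => p.2 (T.1 p.1)) :=
    continuous_pi (fun p => p.2.continuous.comp (continuous_eval p.1))
  exact hW.preimage hc

theorem residual_transfer {A : Set C} (hA : A ∈ @residual C wot) :
    (toC ⁻¹' A) ∈ residual S := by
  obtain ⟨F, h1, h2, h3, h4⟩ := (@mem_residual_iff C wot A).mp hA
  have h5 : (⋂ U ∈ F, toC ⁻¹' U) ∈ residual S := by
    refine (countable_bInter_mem h3).mpr (fun U hU => ?_)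
    exact residual_of_dense_open (open_transfer (h1 U hU)) (dense_transfer (h2 U hU))
  refine Filter.mem_of_superset h5 ?_
  intro T hT
  apply h4
  intro U hU
  exact Set.mem_iInter₂.mp hT U hU

instance : Nontrivial X := ⟨en 0, 0, by
  intro h
  have := en_norm 0
  rw [h, norm_zero] at this
  exact zero_ne_one this⟩

/-- The open dense sets giving strong stability. -/
def O (m k : ℕ) : Set S := {T | ∃ n : ℕ, ‖(T.1 ^ n) (en m)‖ < 1 / ((k : ℝ) + 1)}

theorem O_open (m k : ℕ) : IsOpen (O m k) := by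
  have : O m k = ⋃ n : ℕ, {T : S | ‖(T.1 ^ n) (en m)‖ < 1 / ((k : ℝ) + 1)} := by
    ext T; simp [O]
  rw [this]
  exact isOpen_iUnion (fun n => isOpen_lt (continuous_pow n _).norm continuous_const)

theorem O_dense (m k : ℕ) : Dense (O m k) := by
  intro T
  let c : ℕ → ℝ := fun j => 1 - 1 / ((j : ℝ) + 1)
  have hc0 : ∀ j, 0 ≤ c j := fun j => by
    have : 1 / ((j : ℝ) + 1) ≤ 1 := by
      rw [div_le_one (by positivity)]
      linarith [Nat.cast_nonneg (α := ℝ) j]
    simp only [c]; linarith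
  have hc1 : ∀ j, c j < 1 := fun j => by
    have : 0 < 1 / ((j : ℝ) + 1) := by positivity
    simp only [c]; linarith
  have hcn : ∀ j, ‖((c j : ℂ) • T.1)‖ ≤ c j := fun j => by
    rw [norm_smul, Complex.norm_real, Real.norm_eq_abs, abs_of_nonneg (hc0 j)]
    exact mul_le_of_le_one_right (hc0 j) T.2
  let R : ℕ → S := fun j => ⟨(c j : ℂ) • T.1, (hcn j).trans (hc1 j).le⟩
  have hR : Tendsto R atTop (𝓝 T) := by
    rw [J_ui.isInducing.nhds_eq_comap, tendsto_comap_iff, tendsto_pi_nhds]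
    intro i
    show Tendsto (fun j : ℕ => (c j : ℂ) • T.1 (en i)) atTop (𝓝 (T.1 (en i)))
    have h1 : Tendsto c atTop (𝓝 1) := by
      have := (tendsto_one_div_add_atTop_nhds_zero_nat (𝕜 := ℝ)).const_sub 1
      simpa [c] using this
    have h2 : Tendsto (fun j => (c j : ℂ)) atTop (𝓝 ((1 : ℝ) : ℂ)) :=
      (Complex.continuous_ofReal.tendsto 1).comp h1
    have h3 := h2.smul_const (T.1 (en i))
    simpa using h3
  refine mem_closure_of_tendsto hR (Eventually.of_forall (fun j => ?_))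
  have h1 : Tendsto (fun n : ℕ => (c j) ^ n) atTop (𝓝 0) :=
    tendsto_pow_atTop_nhds_zero_of_lt_one (hc0 j) (hc1 j)
  have h2 := h1.eventually (gt_mem_nhds (show (0 : ℝ) < 1 / ((k : ℝ) + 1) by positivity))
  obtain ⟨n, hn⟩ := h2.exists
  refine ⟨n, ?_⟩
  have h3 : ‖((R j).1 ^ n) (en m)‖ ≤ (c j) ^ n := by
    calc ‖((R j).1 ^ n) (en m)‖ ≤ ‖(R j).1 ^ n‖ * ‖en m‖ := ContinuousLinearMap.le_opNorm _ _
      _ ≤ ‖(R j).1‖ ^ n * 1 := by
        rw [en_norm]
        gcongr
        exact norm_pow_le _ _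
      _ ≤ (c j) ^ n * 1 := by
        gcongr
        exact hcn j
      _ = (c j) ^ n := mul_one _
  exact h3.trans_lt hn

theorem pow_apply_antitone (T : S) (x : X) {a b : ℕ} (h : a ≤ b) :
    ‖(T.1 ^ b) x‖ ≤ ‖(T.1 ^ a) x‖ := by
  induction b, h using Nat.le_induction with
  | base => exact le_rfl
  | succ b _ ih =>
    rw [pow_succ']
    exact (S_apply_le T _).trans ih

theorem stable_of_mem {T : S} (hT : ∀ m k, T ∈ O m k) (x : X) :
    Tendsto (fun n : ℕ => (T.1 ^ n) x) atTop (𝓝 0) := by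
  have hbasis : ∀ m, Tendsto (fun n : ℕ => (T.1 ^ n) (en m)) atTop (𝓝 0) := by
    intro m
    rw [Metric.tendsto_atTop]
    intro ε hε
    obtain ⟨k, hk⟩ := exists_nat_one_div_lt hε
    obtain ⟨n, hn⟩ := hT m k
    refine ⟨n, fun b hb => ?_⟩
    rw [dist_zero_right]
    exact (pow_apply_antitone T _ hb).trans_lt (hn.trans hk)
  rw [Metric.tendsto_atTop]
  intro ε hε
  obtain ⟨N, hN⟩ := (Metric.tendsto_atTop.mp (ps_tendsto x)) (ε / 2) (by positivity)
  have h1 : Tendsto (fun n : ℕ => (T.1 ^ n) (ps N x)) atTop (𝓝 0) := by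
    have : ∀ n : ℕ, (T.1 ^ n) (ps N x) = ∑ k ∈ Finset.range N, (E x) k • (T.1 ^ n) (en k) := by
      intro n
      unfold ps
      rw [map_sum]
      refine Finset.sum_congr rfl (fun k _ => ?_)
      rw [map_smul]
    simp only [this]
    have h := tendsto_finsetSum (Finset.range N) (fun k _ => (hbasis k).const_smul ((E x) k))
    simpa using h
  obtain ⟨n₀, hn₀⟩ := (Metric.tendsto_atTop.mp h1) (ε / 2) (by positivity)
  refine ⟨n₀, fun n hn => ?_⟩
  have h2 := hn₀ n hn
  have h3 := hN N le_rfl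
  rw [dist_zero_right] at h2 ⊢
  have h4 : ‖(T.1 ^ n) (x - ps N x)‖ ≤ ‖x - ps N x‖ := by
    have := pow_apply_antitone T (x - ps N x) (Nat.zero_le n)
    simpa using this
  rw [dist_comm, dist_eq_norm] at h3
  calc ‖(T.1 ^ n) x‖ = ‖(T.1 ^ n) (x - ps N x) + (T.1 ^ n) (ps N x)‖ := by
        rw [← map_add]; congr 2; abel
    _ ≤ ‖(T.1 ^ n) (x - ps N x)‖ + ‖(T.1 ^ n) (ps N x)‖ := norm_add_le _ _
    _ < ε / 2 + ε / 2 := add_lt_add (h4.trans_lt h3) h2
    _ = ε := by ring

/-- The weakly stable contractions of `X` are not meagre for the weak operator topology. -/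
theorem not_meagre : ¬ @IsMeagre C wot
    {T | ∀ (x : X) (f : X →L[ℂ] ℂ),
      Filter.Tendsto (fun n : ℕ => f ((T.1 ^ n) x)) Filter.atTop (nhds 0)} := by
  intro h
  have h1 := residual_transfer h
  have h2 : (⋂ m : ℕ, ⋂ k : ℕ, O m k) ∈ residual S := by
    rw [countable_iInter_mem]
    intro m
    rw [countable_iInter_mem]
    intro k
    exact residual_of_dense_open (O_open m k) (O_dense m k)
  have h3 := dense_of_mem_residual (Filter.inter_mem h1 h2)
  have : Nonempty S := ⟨⟨0, by simp⟩⟩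
  obtain ⟨T, hT1, hT2⟩ := h3.nonempty
  apply hT1
  intro x f
  have h4 := stable_of_mem (T := T) (fun m k => by
    have := Set.mem_iInter.mp hT2 m
    exact Set.mem_iInter.mp this k) x
  have h5 := (f.continuous.tendsto 0).comp h4
  rw [map_zero] at h5
  exact h5

end Pool.Agent.H786R3.GS
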