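import Mathlib

set_option autoImplicit false
open MeasureTheory Filter Topology
open scoped ENNReal

namespace Pool.Agent.H786R3.SG

variable {α : Type*} [MeasurableSpace α] {μ : Measure α}

/-- Bounded measurable symbols. -/
def Good (c : α → ℂ) : Prop := Measurable c ∧ ∃ C : ℝ, ∀ z, ‖c z‖ ≤ C

theorem Good.memLp {c : α → ℂ} (hc : Good c) (f : Lp ℂ 2 μ) :
    MemLp (fun z => c z * f z) 2 μ := by
  obtain ⟨C, hC⟩ := hc.2
  refine MemLp.of_le_mul (c := C) (Lp.memLp f)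
    (hc.1.aestronglyMeasurable.mul (Lp.aestronglyMeasurable f)) (ae_of_all _ fun z => ?_)
  rw [norm_mul]
  exact mul_le_mul_of_nonneg_right (hC z) (norm_nonneg _)

/-- Multiplication operator. -/
noncomputable def mul (c : α → ℂ) (hc : Good c) : Lp ℂ 2 μ →L[ℂ] Lp ℂ 2 μ :=
  LinearMap.mkContinuous
    { toFun := fun f => (hc.memLp f).toLp _
      map_add' := fun f g => by
        apply Lp.ext
        filter_upwards [(hc.memLp (f + g)).coeFn_toLp, (hc.memLp f).coeFn_toLp,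
          (hc.memLp g).coeFn_toLp, Lp.coeFn_add f g,
          Lp.coeFn_add ((hc.memLp f).toLp _) ((hc.memLp g).toLp _)] with z h1 h2 h3 h4 h5
        rw [h1, h5, Pi.add_apply, h2, h3, h4, Pi.add_apply, mul_add]
      map_smul' := fun a f => by
        apply Lp.ext
        filter_upwards [(hc.memLp (a • f)).coeFn_toLp, (hc.memLp f).coeFn_toLp,
          Lp.coeFn_smul a f, Lp.coeFn_smul a ((hc.memLp f).toLp _)] with z h1 h2 h3 h4
        rw [h1, RingHom.id_apply, h4, Pi.smul_apply, h2, h3, Pi.smul_apply, smul_eq_mul,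
          smul_eq_mul, mul_left_comm] }
    hc.2.choose (fun f => by
      refine Lp.norm_le_mul_norm_of_ae_le_mul ?_
      filter_upwards [(hc.memLp f).coeFn_toLp] with z h1
      show ‖((hc.memLp f).toLp _ : α → ℂ) z‖ ≤ _
      rw [h1, norm_mul]
      exact mul_le_mul_of_nonneg_right (hc.2.choose_spec z) (norm_nonneg _))

theorem mul_ae {c : α → ℂ} (hc : Good c) (f : Lp ℂ 2 μ) :
    (mul c hc f : α → ℂ) =ᵐ[μ] fun z => c z * f z := (hc.memLp f).coeFn_toLp

theorem mul_norm_le {c d : α → ℂ} (hc : Good c) (hd : Good d) {K : ℝ}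
    (h : ∀ z, ‖c z‖ ≤ K * ‖d z‖) (f : Lp ℂ 2 μ) : ‖mul c hc f‖ ≤ K * ‖mul d hd f‖ := by
  refine Lp.norm_le_mul_norm_of_ae_le_mul ?_
  filter_upwards [mul_ae hc f, mul_ae hd f] with z h1 h2
  rw [h1, h2, norm_mul, norm_mul, ← mul_assoc]
  exact mul_le_mul_of_nonneg_right (h z) (norm_nonneg _)

theorem mul_norm_le' {c : α → ℂ} (hc : Good c) {K : ℝ}
    (h : ∀ z, ‖c z‖ ≤ K) (f : Lp ℂ 2 μ) : ‖mul c hc f‖ ≤ K * ‖f‖ := by
  refine Lp.norm_le_mul_norm_of_ae_le_mul ?_
  filter_upwards [mul_ae hc f] with z h1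
  rw [h1, norm_mul]
  exact mul_le_mul_of_nonneg_right (h z) (norm_nonneg _)

theorem mul_mul {c d e : α → ℂ} (hc : Good c) (hd : Good d) (he : Good e)
    (h : ∀ z, e z = c z * d z) (f : Lp ℂ 2 μ) : mul e he f = mul c hc (mul d hd f) := by
  apply Lp.ext
  filter_upwards [mul_ae hc (mul d hd f), mul_ae hd f, mul_ae he f] with z h1 h2 h3
  rw [h1, h2, h3, h z, mul_assoc]

/-- Dominated convergence for multiplication operators. -/
theorem mul_tendsto {ι : Type*} {l : Filter ι} [l.IsCountablyGenerated] {c : ι → α → ℂ}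
    {c₀ : α → ℂ} (hc : ∀ i, Good (c i)) (hc₀ : Good c₀) {K : ℝ}
    (hK : ∀ᶠ i in l, ∀ z, ‖c i z‖ ≤ K) (hK₀ : ∀ z, ‖c₀ z‖ ≤ K)
    (hl : ∀ z, Tendsto (fun i => c i z) l (𝓝 (c₀ z))) (f : Lp ℂ 2 μ) :
    Tendsto (fun i => mul (c i) (hc i) f) l (𝓝 (mul c₀ hc₀ f)) := by
  rw [Lp.tendsto_Lp_iff_tendsto_eLpNorm']
  have key : ∀ i, eLpNorm (⇑(mul (c i) (hc i) f) - ⇑(mul c₀ hc₀ f)) 2 μ =
      (∫⁻ z, ‖(c i z - c₀ z) * f z‖ₑ ^ (2 : ℝ) ∂μ) ^ (1 / (2 : ℝ)) := by
    intro i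
    rw [eLpNorm_eq_lintegral_rpow_enorm_toReal (by norm_num) (by norm_num)]
    congr 1
    refine lintegral_congr_ae ?_
    filter_upwards [mul_ae (hc i) f, mul_ae hc₀ f] with z h1 h2
    rw [Pi.sub_apply, h1, h2, ← sub_mul]
    simp
  simp only [key]
  have h0 : Tendsto (fun i => ∫⁻ z, ‖(c i z - c₀ z) * f z‖ₑ ^ (2 : ℝ) ∂μ) l
      (𝓝 (∫⁻ _, 0 ∂μ)) := by
    refine tendsto_lintegral_filter_of_dominated_convergence'
      (fun z => ENNReal.ofReal (2 * K) ^ (2 : ℝ) * ‖f z‖ₑ ^ (2 : ℝ)) ?_ ?_ ?_ ?_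
    · refine Eventually.of_forall (fun i => ?_)
      exact ((((hc i).1.sub hc₀.1).aestronglyMeasurable.mul
        (Lp.aestronglyMeasurable f)).enorm).pow_const _
    · filter_upwards [hK] with i hi
      refine ae_of_all _ (fun z => ?_)
      rw [enorm_mul, ENNReal.mul_rpow_of_nonneg _ _ (by norm_num : (0 : ℝ) ≤ 2)]
      gcongr
      rw [← ofReal_norm]
      refine ENNReal.ofReal_le_ofReal ?_
      have h1 := norm_sub_le (c i z) (c₀ z)
      have h2 := hi z
      have h3 := hK₀ z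
      linarith
    · rw [lintegral_const_mul' _ _ (by
        exact ENNReal.rpow_ne_top_of_nonneg (by norm_num) ENNReal.ofReal_ne_top)]
      refine ENNReal.mul_ne_top (ENNReal.rpow_ne_top_of_nonneg (by norm_num) ENNReal.ofReal_ne_top) ?_
      have h1 := (Lp.memLp f).eLpNorm_lt_top
      rw [eLpNorm_eq_lintegral_rpow_enorm_toReal (by norm_num) (by norm_num)] at h1
      have h2 : ∫⁻ z, ‖f z‖ₑ ^ (2 : ℝ) ∂μ < ∞ := by
        by_contra hcon
        have h3 : ∫⁻ z, ‖f z‖ₑ ^ (2 : ℝ≥0∞).toReal ∂μ = ∞ := by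
          simpa using hcon
        rw [h3] at h1
        simp at h1
      exact h2.ne
    · refine ae_of_all _ (fun z => ?_)
      have h1 : Tendsto (fun i => (c i z - c₀ z) * f z) l (𝓝 0) := by
        have := ((hl z).sub_const (c₀ z)).mul_const (f z)
        simpa using this
      have h2 := (continuous_enorm.tendsto (0 : ℂ)).comp h1
      have h3 := ((ENNReal.continuous_rpow_const (y := 2)).tendsto _).comp h2
      simpa [Function.comp_def] using h3
  rw [lintegral_zero] at h0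
  have h1 := ((ENNReal.continuous_rpow_const (y := 1 / (2 : ℝ))).tendsto _).comp h0
  simpa [Function.comp_def] using h1

end Pool.Agent.H786R3.SG
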