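import Mathlib

set_option autoImplicit false
open MeasureTheory Filter Topology Set Metric
open scoped ENNReal

namespace Pool.Agent.H786R3.SG

theorem circle_submean {g : ℂ → ℂ} {c : ℂ} {t : ℝ} (ht : 0 < t)
    (hg : AnalyticOnNhd ℂ g (closedBall c t)) :
    ‖g c‖ ^ 2 ≤ Real.circleAverage (fun z => ‖g z‖ ^ 2) c t := by
  have habs : |t| = t := abs_of_pos ht
  have hd : DiffContOnCl ℂ (fun z => g z ^ 2) (ball c |t|) := by
    have h1 : DifferentiableOn ℂ (fun z => g z ^ 2) (closedBall c t) :=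
      (hg.differentiableOn).pow 2
    rw [habs]
    apply DifferentiableOn.diffContOnCl
    rw [closure_ball c ht.ne']
    exact h1
  have h := hd.circleAverage
  have hval : ‖g c‖ ^ 2 = ‖Real.circleAverage (fun z => g z ^ 2) c t‖ := by
    rw [h, norm_pow]
  rw [hval, Real.circleAverage_def, Real.circleAverage_def, norm_smul]
  have h2 : ‖(2 * Real.pi)⁻¹‖ = (2 * Real.pi)⁻¹ := by
    rw [Real.norm_eq_abs, abs_of_pos (by positivity)]
  rw [h2, smul_eq_mul]
  refine mul_le_mul_of_nonneg_left ?_ (by positivity)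
  refine (intervalIntegral.norm_integral_le_integral_norm (by positivity)).trans ?_
  apply le_of_eq
  congr 1
  ext θ
  rw [norm_pow]

theorem annulus_submean {g : ℂ → ℂ} {c : ℂ} {s t : ℝ} (hs : 0 < s) (hst : s < t)
    (hg : AnalyticOnNhd ℂ g (closedBall c t)) :
    Real.pi * (t ^ 2 - s ^ 2) * ‖g c‖ ^ 2 ≤
      ∫ z in {z : ℂ | s < ‖z - c‖ ∧ ‖z - c‖ < t}, ‖g z‖ ^ 2 := by
  set V : ℂ → ℝ := fun z => ‖g z‖ ^ 2 with hV
  set A : Set ℂ := {z : ℂ | s < ‖z - c‖ ∧ ‖z - c‖ < t} with hA
  have hAm : MeasurableSet A := by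
    have h1 : Continuous (fun z : ℂ => ‖z - c‖) := by fun_prop
    exact ((isOpen_lt continuous_const h1).inter (isOpen_lt h1 continuous_const)).measurableSet
  have hVc : ContinuousOn V (closedBall c t) := hg.continuousOn.norm.pow 2
  set Φ : ℝ × ℝ → ℂ := fun p => circleMap c p.1 p.2 with hΦ
  have hΦc : Continuous Φ := by
    simp only [hΦ, circleMap]; fun_prop
  have hΦn : ∀ p : ℝ × ℝ, 0 ≤ p.1 → ‖Φ p - c‖ = p.1 := by
    intro p h0
    simp only [hΦ, circleMap_sub_center, norm_circleMap_zero, abs_of_nonneg h0]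
  have hcont : ContinuousOn (fun p : ℝ × ℝ => p.1 * V (Φ p)) (Icc s t ×ˢ Icc (-Real.pi) Real.pi) :=
    continuous_fst.continuousOn.mul (hVc.comp hΦc.continuousOn fun p hp => by
      rw [mem_closedBall, dist_eq_norm, hΦn p (hs.le.trans hp.1.1)]
      exact hp.1.2)
  have hint : IntegrableOn (fun p : ℝ × ℝ => p.1 * V (Φ p)) (Ioo s t ×ˢ Ioo (-Real.pi) Real.pi)
      (volume.prod volume) := by
    have := hcont.integrableOn_compact (μ := volume) (isCompact_Icc.prod isCompact_Icc)
    exact this.mono_set (prod_mono Ioo_subset_Icc_self Ioo_subset_Icc_self)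
  have h1 : ∫ z in A, V z = ∫ p in Ioo s t ×ˢ Ioo (-Real.pi) Real.pi, p.1 * V (Φ p)
      ∂(volume.prod volume) := by
    have e1 : ∫ z in A, V z = ∫ z, A.indicator V (c + z) := by
      rw [integral_add_left_eq_self (fun z => A.indicator V z) c]
      exact (integral_indicator hAm).symm
    rw [e1, ← Complex.integral_comp_polarCoord_symm, polarCoord_target,
      ← integral_indicator (measurableSet_Ioi.prod measurableSet_Ioo),
      ← Measure.volume_eq_prod, ← integral_indicator (measurableSet_Ioo.prod measurableSet_Ioo)]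
    congr 1
    ext p
    have hp : c + Complex.polarCoord.symm p = Φ p := by
      rw [Complex.polarCoord_symm_apply]
      simp only [hΦ, circleMap, Complex.exp_mul_I, Complex.ofReal_cos, Complex.ofReal_sin]
    by_cases hp1 : p ∈ Ioi (0 : ℝ) ×ˢ Ioo (-Real.pi) Real.pi
    · rw [indicator_of_mem hp1, hp, smul_eq_mul]
      have hn : ‖Φ p - c‖ = p.1 := hΦn p (le_of_lt hp1.1)
      by_cases hp2 : s < p.1 ∧ p.1 < t
      · have m1 : Φ p ∈ A := by
          rw [hA, mem_ofPred_eq, hn]
          exact hp2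
        rw [indicator_of_mem m1, indicator_of_mem (show p ∈ Ioo s t ×ˢ Ioo (-Real.pi) Real.pi from
          ⟨hp2, hp1.2⟩)]
      · have m1 : Φ p ∉ A := by
          rw [hA, mem_ofPred_eq, hn]
          exact hp2
        rw [indicator_of_notMem m1, indicator_of_notMem (fun h => hp2 h.1), mul_zero]
    · rw [indicator_of_notMem hp1, indicator_of_notMem (fun h => hp1 ⟨hs.trans h.1.1, h.2⟩)]
  rw [h1, setIntegral_prod _ hint]
  have hinner : ∀ ρ : ℝ, ρ ∈ Ioo s t → 2 * Real.pi * V c * ρ ≤
      ∫ φ in Ioo (-Real.pi) Real.pi, ρ * V (Φ (ρ, φ)) := by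
    intro ρ hρ
    have hρ0 : 0 < ρ := hs.trans hρ.1
    have hs := circle_submean (g := g) (c := c) (t := ρ) hρ0
      (hg.mono (closedBall_subset_closedBall hρ.2.le))
    have e2 : ∫ φ in Ioo (-Real.pi) Real.pi, ρ * V (Φ (ρ, φ)) =
        ρ * (2 * Real.pi * Real.circleAverage V c ρ) := by
      rw [integral_const_mul, Real.circleAverage_eq_integral_add (-Real.pi),
        intervalIntegral.integral_comp_add_right (fun x => V (circleMap c ρ x)),
        ← integral_Ioc_eq_integral_Ioo, ← intervalIntegral.integral_of_le (by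
          linarith [Real.pi_pos])]
      have : (2 * Real.pi + -Real.pi) = Real.pi := by ring
      rw [this, zero_add, smul_eq_mul]
      simp only [hΦ]
      field_simp
    rw [e2]
    have : V c ≤ Real.circleAverage V c ρ := hs
    have hπ := Real.pi_pos
    nlinarith [mul_le_mul_of_nonneg_left this (show 0 ≤ 2 * Real.pi * ρ by positivity)]
  have hI1 : IntegrableOn (fun ρ : ℝ => 2 * Real.pi * V c * ρ) (Ioo s t) :=
    ((continuous_const.mul continuous_id).continuousOn.integrableOn_compact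
      (isCompact_Icc (a := s) (b := t))).mono_set Ioo_subset_Icc_self
  have hI2 : IntegrableOn (fun ρ : ℝ => ∫ φ in Ioo (-Real.pi) Real.pi, ρ * V (Φ (ρ, φ)))
      (Ioo s t) := by
    have := hint
    rw [IntegrableOn, ← Measure.prod_restrict] at this
    exact this.integral_prod_left
  refine le_trans (le_of_eq ?_) (setIntegral_mono_on hI1 hI2 measurableSet_Ioo hinner)
  rw [← integral_Ioc_eq_integral_Ioo, ← intervalIntegral.integral_of_le hst.le,
    intervalIntegral.integral_const_mul, integral_id]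
  simp only [hV]
  ring

/-- The mean value inequality over annuli, with `lintegral`. -/
theorem annulus_submean' {g : ℂ → ℂ} {c : ℂ} {s t : ℝ} (hs : 0 < s) (hst : s < t)
    (hg : AnalyticOnNhd ℂ g (closedBall c t)) :
    ENNReal.ofReal (Real.pi * (t ^ 2 - s ^ 2)) * ‖g c‖ₑ ^ 2 ≤
      ∫⁻ z in {z : ℂ | s < ‖z - c‖ ∧ ‖z - c‖ < t}, ‖g z‖ₑ ^ 2 := by
  have h := ENNReal.ofReal_le_ofReal (annulus_submean hs hst hg)
  have hc : ContinuousOn (fun z => ‖g z‖ ^ 2) (closedBall c t) := hg.continuousOn.norm.pow 2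
  rw [ENNReal.ofReal_mul (by
    have : s ^ 2 ≤ t ^ 2 := pow_le_pow_left₀ hs.le hst.le 2
    exact mul_nonneg Real.pi_pos.le (by linarith)), ofReal_integral_eq_lintegral_ofReal] at h
  · have e : ∀ z : ℂ, ENNReal.ofReal (‖z‖ ^ 2) = ‖z‖ₑ ^ 2 := by
      intro z
      rw [ENNReal.ofReal_pow (norm_nonneg _), ofReal_norm]
    simp only [e] at h
    exact h
  · refine (hc.integrableOn_compact (isCompact_closedBall c t)).mono_set ?_
    intro z hz
    rw [mem_closedBall, dist_eq_norm]
    exact hz.2.le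
  · exact Filter.Eventually.of_forall fun θ => by positivity

/-- For a holomorphic function on the right half-plane, the mass of `|g|²` on a disc of radius
`R/4` about a point with real part `R` is at most the mass off the disc. -/
theorem disc_le_off {g : ℂ → ℂ} (hg : DifferentiableOn ℂ g {z : ℂ | 0 < z.re}) {p : ℂ}
    (hp : 0 < p.re) :
    ∫⁻ z in ball p (p.re / 4), ‖g z‖ₑ ^ 2 ≤
      ∫⁻ z in {z : ℂ | 0 < z.re} \ ball p (p.re / 4), ‖g z‖ₑ ^ 2 := by
  set R := p.re with hR
  set I := ∫⁻ z in {z : ℂ | 0 < z.re} \ ball p (R / 4), ‖g z‖ₑ ^ 2 with hI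
  set κ := ENNReal.ofReal (Real.pi * ((3 * R / 4) ^ 2 - (R / 2) ^ 2)) with hκ
  have hopen : IsOpen {z : ℂ | 0 < z.re} := isOpen_lt continuous_const Complex.continuous_re
  have han : AnalyticOnNhd ℂ g {z : ℂ | 0 < z.re} := hg.analyticOnNhd hopen
  have hre : ∀ z w : ℂ, z.re - w.re ≤ ‖z - w‖ := fun z w => by
    have := Complex.re_le_norm (z - w)
    simpa using this
  have hpt : ∀ z ∈ ball p (R / 4), κ * ‖g z‖ₑ ^ 2 ≤ I := by
    intro z hz
    rw [mem_ball, dist_eq_norm] at hz
    have hsub : closedBall z (3 * R / 4) ⊆ {z : ℂ | 0 < z.re} := by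
      intro w hw
      rw [mem_closedBall, dist_eq_norm] at hw
      have h1 := hre z w
      have h2 := hre p z
      rw [norm_sub_rev] at h1 h2
      show 0 < w.re
      linarith
    have h1 := annulus_submean' (g := g) (c := z) (s := R / 2) (t := 3 * R / 4) (by positivity)
      (by linarith) (han.mono hsub)
    refine h1.trans (lintegral_mono_set ?_)
    intro w hw
    refine ⟨hsub ?_, ?_⟩
    · rw [mem_closedBall, dist_eq_norm]; exact hw.2.le
    · intro hw2
      rw [mem_ball, dist_eq_norm] at hw2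
      have h3 : ‖w - z‖ ≤ ‖w - p‖ + ‖z - p‖ := by
        have := norm_sub_le (w - p) (z - p)
        simpa using this
      have h4 := hw.1
      linarith
  have h2 : κ * ∫⁻ z in ball p (R / 4), ‖g z‖ₑ ^ 2 ≤ κ * I := by
    calc κ * ∫⁻ z in ball p (R / 4), ‖g z‖ₑ ^ 2
        = ∫⁻ z in ball p (R / 4), κ * ‖g z‖ₑ ^ 2 := by
          rw [lintegral_const_mul' _ _ ENNReal.ofReal_ne_top]
      _ ≤ ∫⁻ z in ball p (R / 4), I := setLIntegral_mono' measurableSet_ball hpt
      _ = I * volume (ball p (R / 4)) := by rw [setLIntegral_const]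
      _ ≤ I * κ := by
          gcongr
          rw [Complex.volume_ball, hκ, ← ENNReal.ofReal_pow (by positivity)]
          have : (NNReal.pi : ℝ≥0∞) = ENNReal.ofReal Real.pi := by
            rw [← NNReal.coe_real_pi, ENNReal.ofReal_coe_nnreal]
          rw [this, ← ENNReal.ofReal_mul (by positivity)]
          refine ENNReal.ofReal_le_ofReal ?_
          nlinarith [mul_pos (mul_pos Real.pi_pos hp) hp]
      _ = κ * I := mul_comm _ _
  have hκ0 : κ ≠ 0 := by
    rw [hκ, Ne, ENNReal.ofReal_eq_zero, not_le]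
    have : 0 < (3 * R / 4) ^ 2 - (R / 2) ^ 2 := by nlinarith [mul_pos hp hp]
    exact mul_pos Real.pi_pos this
  exact (ENNReal.mul_le_mul_iff_right hκ0 ENNReal.ofReal_ne_top).mp h2

end Pool.Agent.H786R3.SG
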