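import Pool.Agent.H786R3.SG1
import Pool.Agent.H786R3.SG2

set_option autoImplicit false
open MeasureTheory Filter Topology Set Metric
open scoped ENNReal

namespace Pool.Agent.H786R3.SG

/-- The open right half-plane. -/
def hp : Set ℂ := {z : ℂ | 0 < z.re}

theorem hp_open : IsOpen hp := isOpen_lt continuous_const Complex.continuous_re

theorem hp_meas : MeasurableSet hp := hp_open.measurableSet

/-- Area measure on the half-plane. -/
noncomputable def μ₀ : Measure ℂ := volume.restrict hp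

/-- The ambient space. -/
abbrev L : Type := ↥(Lp ℂ 2 μ₀)

open Classical in
/-- The symbols `exp(-t z)`. -/
noncomputable def ct (t : ℝ) (z : ℂ) : ℂ :=
  if z ∈ hp then Complex.exp (-((max t 0 : ℝ) : ℂ) * z) else 0

theorem norm_exp_le {s : ℝ} (hs : 0 ≤ s) {z : ℂ} (hz : z ∈ hp) :
    ‖Complex.exp (-(s : ℂ) * z)‖ ≤ 1 := by
  rw [Complex.norm_exp]
  have : (-(s : ℂ) * z).re = -(s * z.re) := by simp
  rw [this]
  apply Real.exp_le_one_iff.mpr
  have := mul_nonneg hs (le_of_lt (show 0 < z.re from hz))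
  linarith

theorem ct_le (t : ℝ) (z : ℂ) : ‖ct t z‖ ≤ 1 := by
  unfold ct
  split_ifs with h
  · exact norm_exp_le (le_max_right _ _) h
  · simp

theorem ct_good (t : ℝ) : Good (ct t) := by
  refine ⟨?_, 1, ct_le t⟩
  unfold ct
  refine Measurable.ite hp_meas ?_ measurable_const
  fun_prop

/-- Functions in `L` that are almost everywhere equal to a holomorphic function. -/
noncomputable def A0 : Submodule ℂ L where
  carrier := {f | ∃ g : ℂ → ℂ, DifferentiableOn ℂ g hp ∧ (f : ℂ → ℂ) =ᵐ[μ₀] g}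
  add_mem' := by
    rintro f f' ⟨g, hg, h⟩ ⟨g', hg', h'⟩
    refine ⟨fun z => g z + g' z, hg.add hg', ?_⟩
    filter_upwards [Lp.coeFn_add f f', h, h'] with z h1 h2 h3
    rw [h1, Pi.add_apply, h2, h3]
  zero_mem' := ⟨fun _ => 0, differentiableOn_const _, by
    filter_upwards [Lp.coeFn_zero ℂ 2 μ₀] with z h1
    rw [h1]; rfl⟩
  smul_mem' := by
    rintro a f ⟨g, hg, h⟩
    refine ⟨fun z => a * g z, hg.const_mul a, ?_⟩
    filter_upwards [Lp.coeFn_smul a f, h] with z h1 h2
    rw [h1, Pi.smul_apply, h2, smul_eq_mul]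

/-- The Bergman space of the half-plane, as a closed subspace. -/
noncomputable def Hs : Submodule ℂ L := A0.topologicalClosure

theorem mul_ct_A0 (t : ℝ) {f : L} (hf : f ∈ A0) : mul (ct t) (ct_good t) f ∈ A0 := by
  obtain ⟨g, hg, h⟩ := hf
  refine ⟨fun z => Complex.exp (-((max t 0 : ℝ) : ℂ) * z) * g z, ?_, ?_⟩
  · refine DifferentiableOn.mul ?_ hg
    fun_prop
  · filter_upwards [mul_ae (ct_good t) f, h, ae_restrict_mem hp_meas] with z h1 h2 h3
    rw [h1, h2]
    unfold ct
    rw [if_pos h3]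

theorem mul_ct_Hs (t : ℝ) {f : L} (hf : f ∈ Hs) : mul (ct t) (ct_good t) f ∈ Hs :=
  map_mem_closure (mul (ct t) (ct_good t)).continuous hf (fun _ ha => mul_ct_A0 t ha)

/-- The semigroup. -/
noncomputable def T (t : ℝ) : Hs →L[ℂ] Hs :=
  ((mul (ct t) (ct_good t)).comp Hs.subtypeL).codRestrict Hs (fun x => mul_ct_Hs t x.2)

theorem T_coe (t : ℝ) (x : Hs) : ((T t x : Hs) : L) = mul (ct t) (ct_good t) (x : L) := rfl

theorem T_zero : T 0 = ContinuousLinearMap.id ℂ Hs := by
  ext1 x
  apply Subtype.ext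
  rw [T_coe]
  apply Lp.ext
  filter_upwards [mul_ae (ct_good 0) (x : L), ae_restrict_mem hp_meas] with z h1 h2
  rw [h1]
  unfold ct
  rw [if_pos h2]
  simp

theorem T_add (s t : ℝ) (hs : 0 ≤ s) (ht : 0 ≤ t) : T (s + t) = (T s).comp (T t) := by
  ext1 x
  apply Subtype.ext
  rw [T_coe]
  show _ = mul (ct s) (ct_good s) (mul (ct t) (ct_good t) (x : L))
  apply mul_mul
  intro z
  unfold ct
  split_ifs with h
  · rw [← Complex.exp_add, max_eq_left hs, max_eq_left ht, max_eq_left (add_nonneg hs ht)]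
    congr 1
    push_cast
    ring
  · simp

theorem T_norm (t : ℝ) : ‖T t‖ ≤ 1 := by
  refine ContinuousLinearMap.opNorm_le_bound _ zero_le_one (fun x => ?_)
  exact mul_norm_le' (ct_good t) (ct_le t) (x : L)

theorem T_cont (x : Hs) : Continuous (fun t : ℝ => T t x) := by
  rw [continuous_iff_continuousAt]
  intro t₀
  show Tendsto (fun t : ℝ => T t x) (𝓝 t₀) (𝓝 (T t₀ x))
  rw [tendsto_subtype_rng]
  refine mul_tendsto (fun t => ct_good t) (ct_good t₀) (K := 1)
    (Eventually.of_forall (fun t z => ct_le t z)) (ct_le t₀) (fun z => ?_) (x : L)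
  have : Continuous (fun t : ℝ => ct t z) := by
    unfold ct
    split_ifs
    · fun_prop
    · fun_prop
  exact this.tendsto t₀

theorem zero_good : Good (fun _ : ℂ => (0 : ℂ)) := ⟨measurable_const, 0, fun _ => by simp⟩

theorem T_decay (x : Hs) : Tendsto (fun t : ℝ => ‖T t x‖) atTop (𝓝 0) := by
  have h : Tendsto (fun t : ℝ => mul (ct t) (ct_good t) (x : L)) atTop
      (𝓝 (mul _ zero_good (x : L))) := by
    refine mul_tendsto (fun t => ct_good t) zero_good (K := 1)
      (Eventually.of_forall (fun t z => ct_le t z)) (fun _ => by simp) (fun z => ?_) (x : L)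
    by_cases hz : z ∈ hp
    · rw [tendsto_zero_iff_norm_tendsto_zero]
      have h1 : ∀ᶠ t : ℝ in atTop, Real.exp (-(t * z.re)) = ‖ct t z‖ := by
        filter_upwards [eventually_ge_atTop (0 : ℝ)] with t ht
        unfold ct
        rw [if_pos hz, Complex.norm_exp, max_eq_left ht]
        congr 1
        simp
      refine Tendsto.congr' h1 ?_
      have h2 : Tendsto (fun t : ℝ => t * z.re) atTop atTop :=
        tendsto_id.atTop_mul_const hz
      exact Real.tendsto_exp_neg_atTop_nhds_zero.comp h2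
    · have : (fun t : ℝ => ct t z) = fun _ => 0 := by
        funext t
        unfold ct
        rw [if_neg hz]
      rw [this]
      exact tendsto_const_nhds
  have h0 : mul _ zero_good (x : L) = 0 := by
    apply Lp.ext
    filter_upwards [mul_ae zero_good (x : L), Lp.coeFn_zero ℂ 2 μ₀] with z h1 h2
    rw [h1, h2]
    simp
  rw [h0] at h
  have := h.norm
  rw [norm_zero] at this
  exact this

open Classical in
/-- Indicator of the disc about `p`. -/
noncomputable def cB (p z : ℂ) : ℂ := if z ∈ ball p (p.re / 4) then 1 else 0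

open Classical in
/-- Indicator of the complement. -/
noncomputable def cO (p z : ℂ) : ℂ := if z ∈ ball p (p.re / 4) then 0 else 1

theorem cB_good (p : ℂ) : Good (cB p) := by
  refine ⟨Measurable.ite measurableSet_ball measurable_const measurable_const, 1, fun z => ?_⟩
  unfold cB
  split_ifs <;> simp

theorem cO_good (p : ℂ) : Good (cO p) := by
  refine ⟨Measurable.ite measurableSet_ball measurable_const measurable_const, 1, fun z => ?_⟩
  unfold cO
  split_ifs <;> simp

theorem ball_sub {p : ℂ} (hp' : 0 < p.re) : ball p (p.re / 4) ⊆ hp := by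
  intro z hz
  rw [mem_ball, dist_eq_norm, norm_sub_rev] at hz
  have := Complex.re_le_norm (p - z)
  rw [Complex.sub_re] at this
  show 0 < z.re
  linarith

theorem disc_A0 {p : ℂ} (hp' : 0 < p.re) {f : L} (hf : f ∈ A0) :
    ‖mul (cB p) (cB_good p) f‖ ≤ ‖mul (cO p) (cO_good p) f‖ := by
  obtain ⟨g, hg, h⟩ := hf
  rw [Lp.norm_def, Lp.norm_def]
  refine ENNReal.toReal_mono (Lp.eLpNorm_ne_top _) ?_
  rw [eLpNorm_eq_lintegral_rpow_enorm_toReal (by norm_num) (by norm_num),
    eLpNorm_eq_lintegral_rpow_enorm_toReal (by norm_num) (by norm_num)]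
  refine ENNReal.rpow_le_rpow ?_ (by norm_num)
  have h1 : ∫⁻ z, ‖(mul (cB p) (cB_good p) f : ℂ → ℂ) z‖ₑ ^ (2 : ℝ≥0∞).toReal ∂μ₀ =
      ∫⁻ z in ball p (p.re / 4), ‖g z‖ₑ ^ 2 := by
    rw [← Measure.restrict_restrict_of_subset (ball_sub hp'), ← lintegral_indicator measurableSet_ball]
    refine lintegral_congr_ae ?_
    filter_upwards [mul_ae (cB_good p) f, h] with z a1 a2
    rw [a1, a2]
    unfold cB
    by_cases hz : z ∈ ball p (p.re / 4)
    · rw [if_pos hz, indicator_of_mem hz]; simp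
    · rw [if_neg hz, indicator_of_notMem hz]; simp
  have h2 : ∫⁻ z, ‖(mul (cO p) (cO_good p) f : ℂ → ℂ) z‖ₑ ^ (2 : ℝ≥0∞).toReal ∂μ₀ =
      ∫⁻ z in hp \ ball p (p.re / 4), ‖g z‖ₑ ^ 2 := by
    rw [Set.sdiff_eq, inter_comm, ← Measure.restrict_restrict measurableSet_ball.compl,
      ← lintegral_indicator measurableSet_ball.compl]
    refine lintegral_congr_ae ?_
    filter_upwards [mul_ae (cO_good p) f, h] with z a1 a2
    rw [a1, a2]
    unfold cO
    by_cases hz : z ∈ ball p (p.re / 4)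
    · rw [if_pos hz, indicator_of_notMem (by simpa using hz)]; simp
    · rw [if_neg hz, indicator_of_mem (by simpa using hz)]; simp
  rw [h1, h2]
  exact disc_le_off hg hp'

theorem disc_Hs {p : ℂ} (hp' : 0 < p.re) {f : L} (hf : f ∈ Hs) :
    ‖mul (cB p) (cB_good p) f‖ ≤ ‖mul (cO p) (cO_good p) f‖ := by
  have hclosed : IsClosed {f : L | ‖mul (cB p) (cB_good p) f‖ ≤ ‖mul (cO p) (cO_good p) f‖} :=
    isClosed_le (mul (cB p) (cB_good p)).continuous.norm (mul (cO p) (cO_good p)).continuous.norm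
  exact closure_minimal (fun f hf => disc_A0 hp' hf) hclosed hf

theorem exp_sub_one_le {w : ℂ} (hw : 0 ≤ w.re) : ‖Complex.exp (-w) - 1‖ ≤ ‖w‖ := by
  have h := norm_image_sub_le_of_norm_deriv_le_segment_01' (f := fun s : ℝ => Complex.exp (-((s : ℂ) * w)))
    (f' := fun s : ℝ => Complex.exp (-((s : ℂ) * w)) * (-(1 * w))) (C := ‖w‖) ?_ ?_
  · simpa using h
  · intro s _
    apply HasDerivAt.hasDerivWithinAt
    exact (((Complex.ofRealCLM.hasDerivAt (x := s)).mul_const w).neg).cexp
  · intro s hs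
    rw [norm_mul, norm_neg, one_mul, Complex.norm_exp]
    have : (-((s : ℂ) * w)).re = -(s * w.re) := by simp
    rw [this]
    have h1 : Real.exp (-(s * w.re)) ≤ 1 := by
      apply Real.exp_le_one_iff.mpr
      have := mul_nonneg hs.1 hw
      linarith
    exact mul_le_of_le_one_left (norm_nonneg _) h1

end Pool.Agent.H786R3.SG
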