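import Pool.Agent.H786R3.SG3

set_option autoImplicit false
open MeasureTheory Filter Topology Set Metric
open scoped ENNReal

namespace Pool.Agent.H786R3.SG

open Classical in
/-- The symbol `1/(z-p)` off the disc. -/
noncomputable def cI (p z : ℂ) : ℂ := if z ∈ ball p (p.re / 4) then 0 else (z - p)⁻¹

theorem cI_le {p : ℂ} (hp' : 0 < p.re) (z : ℂ) : ‖cI p z‖ ≤ 4 / p.re := by
  unfold cI
  split_ifs with h
  · rw [norm_zero]; positivity
  · rw [mem_ball, dist_eq_norm, not_lt] at h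
    rw [norm_inv, inv_le_comm₀ (by linarith) (by positivity)]
    rw [inv_div]
    exact h

theorem cI_good {p : ℂ} (hp' : 0 < p.re) : Good (cI p) := by
  refine ⟨Measurable.ite measurableSet_ball measurable_const ?_, _, cI_le hp'⟩
  fun_prop

open Classical in
/-- Difference quotient symbols. -/
noncomputable def dh (p : ℂ) (h : ℝ) (z : ℂ) : ℂ :=
  if z ∈ hp then cI p z * ((h : ℂ)⁻¹ * (Complex.exp (-((max h 0 : ℝ) : ℂ) * z) - 1)) else 0

open Classical in
/-- Limit symbol. -/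
noncomputable def d0 (p : ℂ) (z : ℂ) : ℂ := if z ∈ hp then cI p z * (-z) else 0

theorem cI_mul_le {p : ℂ} (hp' : 0 < p.re) (z : ℂ) : ‖cI p z‖ * ‖z‖ ≤ 1 + ‖p‖ * (4 / p.re) := by
  have h1 : ‖z‖ ≤ ‖z - p‖ + ‖p‖ := by
    have := norm_add_le (z - p) p
    simpa using this
  have h2 := cI_le hp' z
  have h3 : ‖cI p z‖ * ‖z - p‖ ≤ 1 := by
    unfold cI
    split_ifs with h
    · simp
    · rw [norm_inv]
      exact inv_mul_le_one
  calc ‖cI p z‖ * ‖z‖ ≤ ‖cI p z‖ * (‖z - p‖ + ‖p‖) := by gcongr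
    _ = ‖cI p z‖ * ‖z - p‖ + ‖p‖ * ‖cI p z‖ := by ring
    _ ≤ 1 + ‖p‖ * (4 / p.re) := by gcongr

theorem d0_le {p : ℂ} (hp' : 0 < p.re) (z : ℂ) : ‖d0 p z‖ ≤ 1 + ‖p‖ * (4 / p.re) := by
  unfold d0
  split_ifs with h
  · rw [norm_mul, norm_neg]; exact cI_mul_le hp' z
  · rw [norm_zero]; positivity

theorem dh_le {p : ℂ} (hp' : 0 < p.re) {h : ℝ} (hh : 0 < h) (z : ℂ) :
    ‖dh p h z‖ ≤ 1 + ‖p‖ * (4 / p.re) := by
  unfold dh
  split_ifs with hz
  · refine le_trans ?_ (cI_mul_le hp' z)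
    rw [norm_mul]
    refine mul_le_mul_of_nonneg_left ?_ (norm_nonneg _)
    have h1 := exp_sub_one_le (w := (h : ℂ) * z) (by
      have := mul_nonneg hh.le (le_of_lt (show 0 < z.re from hz))
      simpa using this)
    rw [max_eq_left hh.le, neg_mul, norm_mul, norm_inv, Complex.norm_real, Real.norm_eq_abs,
      abs_of_pos hh]
    rw [norm_mul, Complex.norm_real, Real.norm_eq_abs, abs_of_pos hh] at h1
    rw [inv_mul_le_iff₀ hh]
    exact h1
  · rw [norm_zero]; positivity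

theorem d0_good {p : ℂ} (hp' : 0 < p.re) : Good (d0 p) := by
  refine ⟨Measurable.ite hp_meas ((cI_good hp').1.mul measurable_id.neg) measurable_const, _,
    d0_le hp'⟩

theorem dh_good {p : ℂ} (hp' : 0 < p.re) (h : ℝ) : Good (dh p h) := by
  refine ⟨Measurable.ite hp_meas ((cI_good hp').1.mul (by fun_prop)) measurable_const,
    4 / p.re * (‖(h : ℂ)⁻¹‖ * 2), fun z => ?_⟩
  unfold dh
  split_ifs with hz
  · rw [norm_mul, norm_mul]
    have h1 := norm_exp_le (le_max_right h 0) hz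
    have h2 : ‖Complex.exp (-((max h 0 : ℝ) : ℂ) * z) - 1‖ ≤ 2 := by
      refine (norm_sub_le _ _).trans ?_
      rw [norm_one]
      linarith
    have h3 := cI_le hp' z
    gcongr
  · rw [norm_zero]; positivity

theorem dh_tendsto (p z : ℂ) : Tendsto (fun h : ℝ => dh p h z) (𝓝[>] 0) (𝓝 (d0 p z)) := by
  unfold dh d0
  split_ifs with hz
  · refine Tendsto.const_mul _ ?_
    have hd : HasDerivAt (fun h : ℝ => Complex.exp (-((h : ℂ) * z))) (-z) 0 := by
      have := ((((Complex.ofRealCLM.hasDerivAt (x := (0 : ℝ))).mul_const z).neg).cexp)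
      simpa using this
    have h1 := hd.tendsto_slope
    have h2 : Tendsto (slope (fun h : ℝ => Complex.exp (-((h : ℂ) * z))) 0) (𝓝[>] 0) (𝓝 (-z)) :=
      h1.mono_left (nhdsWithin_mono _ (fun x hx => ne_of_gt hx))
    refine Tendsto.congr' ?_ h2
    filter_upwards [self_mem_nhdsWithin] with h hh
    rw [slope_def_module, max_eq_left (le_of_lt hh)]
    simp
  · exact tendsto_const_nhds

/-- The lower resolvent estimate. -/
theorem lower (x y : Hs)
    (hxy : Tendsto (fun h : ℝ => ((h : ℂ)⁻¹) • (T h x - x)) (nhdsWithin 0 (Set.Ioi 0)) (nhds y))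
    (μ : ℂ) (hμ : μ.re < 0) : 1 / 8 * |μ.re| * ‖x‖ ≤ ‖μ • x - y‖ := by
  set p : ℂ := -μ with hpdef
  have hp' : 0 < p.re := by rw [hpdef, Complex.neg_re]; linarith
  have hμp : μ = -p := by rw [hpdef, neg_neg]
  have hci := cI_good hp'
  -- the limit of difference quotients
  have h1 : Tendsto (fun h : ℝ => ((((h : ℂ)⁻¹) • (T h x - x) : Hs) : L)) (𝓝[>] 0) (𝓝 (y : L)) :=
    (continuous_subtype_val.tendsto y).comp hxy
  have h2 : Tendsto (fun h : ℝ => mul (cI p) hci ((((h : ℂ)⁻¹) • (T h x - x) : Hs) : L)) (𝓝[>] 0)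
      (𝓝 (mul (cI p) hci (y : L))) := ((mul (cI p) hci).continuous.tendsto _).comp h1
  have h3 : ∀ h : ℝ, mul (cI p) hci ((((h : ℂ)⁻¹) • (T h x - x) : Hs) : L) =
      mul (dh p h) (dh_good hp' h) (x : L) := by
    intro h
    apply Lp.ext
    have e1 : ((((h : ℂ)⁻¹) • (T h x - x) : Hs) : L) =
        ((h : ℂ)⁻¹) • (mul (ct h) (ct_good h) (x : L) - (x : L)) := rfl
    rw [e1]
    filter_upwards [mul_ae hci (((h : ℂ)⁻¹) • (mul (ct h) (ct_good h) (x : L) - (x : L))),
      mul_ae (dh_good hp' h) (x : L),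
      Lp.coeFn_smul ((h : ℂ)⁻¹) (mul (ct h) (ct_good h) (x : L) - (x : L)),
      Lp.coeFn_sub (mul (ct h) (ct_good h) (x : L)) (x : L), mul_ae (ct_good h) (x : L),
      ae_restrict_mem hp_meas] with z a1 a2 a3 a4 a5 a6
    rw [a1, a2, a3, Pi.smul_apply, a4, Pi.sub_apply, a5]
    unfold dh ct
    rw [if_pos a6, if_pos a6, smul_eq_mul]
    ring
  simp only [h3] at h2
  have h4 : Tendsto (fun h : ℝ => mul (dh p h) (dh_good hp' h) (x : L)) (𝓝[>] 0)
      (𝓝 (mul (d0 p) (d0_good hp') (x : L))) := by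
    refine mul_tendsto (fun h => dh_good hp' h) (d0_good hp') (K := 1 + ‖p‖ * (4 / p.re)) ?_
      (d0_le hp') (fun z => dh_tendsto p z) (x : L)
    filter_upwards [self_mem_nhdsWithin] with h hh z
    exact dh_le hp' hh z
  have h5 : mul (cI p) hci (y : L) = mul (d0 p) (d0_good hp') (x : L) :=
    tendsto_nhds_unique h2 h4
  have h6 : mul (cO p) (cO_good p) (x : L) = mul (cI p) hci ((μ • x - y : Hs) : L) := by
    have e1 : ((μ • x - y : Hs) : L) = μ • (x : L) - (y : L) := rfl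
    rw [e1, map_sub, map_smul, h5]
    apply Lp.ext
    filter_upwards [mul_ae (cO_good p) (x : L), mul_ae hci (x : L), mul_ae (d0_good hp') (x : L),
      Lp.coeFn_sub (μ • mul (cI p) hci (x : L)) (mul (d0 p) (d0_good hp') (x : L)),
      Lp.coeFn_smul μ (mul (cI p) hci (x : L)), ae_restrict_mem hp_meas] with z a1 a2 a3 a4 a5 a6
    rw [a1, a4, Pi.sub_apply, a3, a5, Pi.smul_apply, a2, smul_eq_mul]
    unfold d0 cO cI
    rw [if_pos a6]
    split_ifs with hz
    · simp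
    · have hne : z - p ≠ 0 := by
        intro h0
        apply hz
        rw [mem_ball, dist_eq_norm, h0, norm_zero]
        positivity
      rw [hμp]
      field_simp
      ring
  have h7 : ‖mul (cO p) (cO_good p) (x : L)‖ ≤ 4 / p.re * ‖μ • x - y‖ := by
    rw [h6]
    exact mul_norm_le' hci (cI_le hp') _
  have h8 : (x : L) = mul (cB p) (cB_good p) (x : L) + mul (cO p) (cO_good p) (x : L) := by
    apply Lp.ext
    filter_upwards [mul_ae (cB_good p) (x : L), mul_ae (cO_good p) (x : L),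
      Lp.coeFn_add (mul (cB p) (cB_good p) (x : L)) (mul (cO p) (cO_good p) (x : L))]
      with z a1 a2 a3
    rw [a3, Pi.add_apply, a1, a2]
    unfold cB cO
    split_ifs <;> simp
  have h9 : ‖x‖ ≤ ‖mul (cB p) (cB_good p) (x : L)‖ + ‖mul (cO p) (cO_good p) (x : L)‖ := by
    have : ‖x‖ = ‖(x : L)‖ := rfl
    rw [this]
    nth_rewrite 1 [h8]
    exact norm_add_le _ _
  have h10 := disc_Hs hp' x.2
  have h11 : ‖x‖ ≤ 8 / p.re * ‖μ • x - y‖ := by
    have : 8 / p.re * ‖μ • x - y‖ = 2 * (4 / p.re * ‖μ • x - y‖) := by ring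
    linarith
  have h12 : |μ.re| = p.re := by
    rw [abs_of_neg hμ, hpdef, Complex.neg_re]
  rw [h12]
  have h13 : p.re * ‖x‖ ≤ p.re * (8 / p.re * ‖μ • x - y‖) :=
    mul_le_mul_of_nonneg_left h11 hp'.le
  have h14 : p.re * (8 / p.re * ‖μ • x - y‖) = 8 * ‖μ • x - y‖ := by field_simp
  linarith

/-- A nonzero element. -/
theorem exists_ne : ∃ x : Hs, x ≠ 0 := by
  let g : ℂ → ℂ := fun z => ((1 + z) ^ 2)⁻¹
  have hgm : Measurable g := by fun_prop
  have hbound : ∀ z ∈ hp, ‖‖g z‖ ^ 2‖ ≤ 4 * (1 + ‖z‖) ^ (-4 : ℝ) := by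
    intro z hz
    have hz' : 0 < z.re := hz
    have h1 : (1 + ‖z‖) ^ 2 ≤ 2 * ‖1 + z‖ ^ 2 := by
      have e1 : ‖1 + z‖ ^ 2 = (1 + z.re) ^ 2 + z.im ^ 2 := by
        rw [← Complex.normSq_eq_norm_sq, Complex.normSq_apply]; simp; ring
      have e2 : ‖z‖ ^ 2 = z.re ^ 2 + z.im ^ 2 := by
        rw [← Complex.normSq_eq_norm_sq, Complex.normSq_apply]; ring
      nlinarith [sq_nonneg (‖z‖ - 1)]
    have h2 : 0 < 1 + ‖z‖ := by positivity
    have h3 : 0 < ‖1 + z‖ ^ 2 := by nlinarith [sq_nonneg (1 + ‖z‖)]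
    have h4 : ‖‖g z‖ ^ 2‖ = ((‖1 + z‖ ^ 2) ^ 2)⁻¹ := by
      simp only [g]
      rw [norm_inv, norm_pow, Real.norm_eq_abs, abs_of_nonneg (by positivity), inv_pow, norm_pow]
    have h5 : (1 + ‖z‖) ^ (-4 : ℝ) = (((1 + ‖z‖) ^ 2) ^ 2)⁻¹ := by
      rw [Real.rpow_neg h2.le, ← pow_mul]
      norm_num
    rw [h4, h5]
    have h6 : ((1 + ‖z‖) ^ 2) ^ 2 ≤ 4 * (‖1 + z‖ ^ 2) ^ 2 := by nlinarith [sq_nonneg (1 + ‖z‖)]
    have h7 : 0 < ((1 + ‖z‖) ^ 2) ^ 2 := by positivity
    rw [← div_eq_mul_inv, inv_eq_one_div, div_le_div_iff₀ (by positivity) h7]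
    linarith
  have hint : Integrable (fun z => ‖g z‖ ^ 2) μ₀ := by
    have h1 : Integrable (fun z : ℂ => (1 + ‖z‖) ^ (-4 : ℝ)) volume := by
      apply integrable_one_add_norm
      rw [Complex.finrank_real_complex]; norm_num
    refine Integrable.mono' (g := fun z : ℂ => 4 * (1 + ‖z‖) ^ (-4 : ℝ))
      ((h1.const_mul 4).restrict) (hgm.norm.pow_const 2).aestronglyMeasurable ?_
    filter_upwards [ae_restrict_mem hp_meas] with z hz
    exact hbound z hz
  have hmem : MemLp g 2 μ₀ :=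
    (memLp_two_iff_integrable_sq_norm hgm.aestronglyMeasurable).mpr hint
  have hA : hmem.toLp g ∈ A0 := by
    refine ⟨g, ?_, hmem.coeFn_toLp⟩
    intro z hz
    have hz' : 0 < z.re := hz
    apply DifferentiableAt.differentiableWithinAt
    have hne : (1 + z) ^ 2 ≠ 0 := by
      apply pow_ne_zero
      intro h0
      have := congrArg Complex.re h0
      simp at this
      linarith
    exact DifferentiableAt.inv (by fun_prop) hne
  refine ⟨⟨hmem.toLp g, Submodule.le_topologicalClosure _ hA⟩, ?_⟩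
  intro h0
  have h1 : hmem.toLp g = 0 := congrArg Subtype.val h0
  have h2 : ∀ᵐ z ∂μ₀, False := by
    have h3 := hmem.coeFn_toLp
    rw [h1] at h3
    filter_upwards [h3, Lp.coeFn_zero ℂ 2 μ₀, ae_restrict_mem hp_meas] with z a1 a2 a3
    rw [a2] at a1
    have hz' : 0 < z.re := a3
    have hne : (1 + z) ^ 2 ≠ 0 := by
      apply pow_ne_zero
      intro h0
      have := congrArg Complex.re h0
      simp at this
      linarith
    exact (inv_ne_zero hne) a1.symm
  have h4 : μ₀ = 0 := by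
    rw [← Measure.measure_univ_eq_zero]
    have := (ae_iff.mp h2)
    simpa using this
  have h5 : volume hp = 0 := by
    have := congrArg (fun m : Measure ℂ => m Set.univ) h4
    simpa [μ₀] using this
  exact (hp_open.measure_pos volume ⟨1, by show 0 < (1 : ℂ).re; simp⟩).ne' h5

instance : CompleteSpace Hs := by
  have : IsClosed (Hs : Set L) := Submodule.isClosed_topologicalClosure _
  exact this.completeSpace_coe

end Pool.Agent.H786R3.SG
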